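import Pool.Agent.Lib.DI.Util.Spec

/-!
# Theorem DI, UCop: coprimality in `O`
-/

open scoped Pointwise Topology nonZeroDivisors
open Filter

noncomputable section

namespace Pool.Agent.DI

open Pool.Agent.MuZ

private theorem mul_re' (v u : OO) : (v * u).re = v.re * u.re + -2 * v.im * u.im :=
  QuadraticAlgebra.re_mul v u

private theorem mul_im' (v u : OO) : (v * u).im = v.re * u.im + v.im * u.re + 1 * v.im * u.im :=
  QuadraticAlgebra.im_mul v u

private theorem nat_re (n : ℕ) : (n : OO).re = n := rfl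

private theorem nat_im (n : ℕ) : (n : OO).im = 0 := rfl

private theorem int_re (n : ℤ) : (n : OO).re = n := rfl

private theorem int_im (n : ℤ) : (n : OO).im = 0 := rfl

private theorem two_re : (2 : OO).re = 2 := rfl

private theorem two_im : (2 : OO).im = 0 := rfl

private theorem oo_ext {v u : OO} (h1 : v.re = u.re) (h2 : v.im = u.im) : v = u :=
  QuadraticAlgebra.ext h1 h2

private theorem Nm_mul' (v u : OO) : Nm (v * u) = Nm v * Nm u := by
  unfold Nm
  rw [mul_re', mul_im']
  ring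

private theorem Nm_add' (v u : OO) (n : ℕ) : ∃ t : ℤ, Nm (v + n * u) = Nm v + n * t := by
  refine ⟨2 * v.re * u.re + n * u.re ^ 2 + v.re * u.im + v.im * u.re + n * u.re * u.im +
    4 * v.im * u.im + 2 * n * u.im ^ 2, ?_⟩
  have h1 : (v + (n : OO) * u).re = v.re + n * u.re := by
    change v.re + ((n : OO) * u).re = _
    rw [mul_re', nat_re, nat_im]
    ring
  have h2 : (v + (n : OO) * u).im = v.im + n * u.im := by
    change v.im + ((n : OO) * u).im = _
    rw [mul_im', nat_re, nat_im]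
    ring
  unfold Nm
  rw [h1, h2]
  ring

private theorem Nm_cj (v : OO) : ((Nm v : ℤ) : OO) = cjO v * v := by
  apply oo_ext
  · rw [mul_re', int_re]
    unfold Nm cjO
    ring
  · rw [mul_im', int_im]
    unfold cjO
    ring

/-- Coprimality to an integer and to its image in `O`. -/
theorem UCop_iff (v : OO) (N : ℕ) : Cop v N ↔ IsCoprime v (N : OO) := by
  constructor
  · rintro ⟨a, b, h⟩
    refine ⟨(a : OO) * cjO v, (b : OO), ?_⟩
    rw [mul_assoc, ← Nm_cj]
    have := congrArg (fun n : ℤ => (n : OO)) h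
    push_cast at this
    exact_mod_cast this
  · rintro ⟨a, b, h⟩
    have h1 : a * v = 1 + N * (-b) := by
      rw [← h]
      ring
    obtain ⟨t, ht⟩ := Nm_add' 1 (-b) N
    have h2 : Nm a * Nm v = 1 + N * t := by
      rw [← Nm_mul', h1, ht]
      rfl
    exact ⟨Nm a, -t, by rw [h2]; ring⟩

/-- Products. -/
theorem UCop_mul (v u : OO) (N : ℕ) : Cop (v * u) N ↔ Cop v N ∧ Cop u N := by
  unfold Cop
  rw [Nm_mul', IsCoprime.mul_left_iff]

/-- Coprimality depends only on the class. -/
theorem UCop_add (v u : OO) (N : ℕ) : Cop (v + N * u) N ↔ Cop v N := by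
  unfold Cop
  obtain ⟨t, ht⟩ := Nm_add' v u N
  rw [ht]
  exact IsCoprime.add_mul_left_left_iff

/-- Products on the right. -/
theorem UCop_mul_right (v : OO) (N M : ℕ) : Cop v (N * M) ↔ Cop v N ∧ Cop v M := by
  unfold Cop
  push_cast
  exact IsCoprime.mul_right_iff

private theorem icop_two (n : ℤ) : IsCoprime n ((2 : ℕ) : ℤ) ↔ n % 2 = 1 := by
  constructor
  · rintro ⟨a, b, h⟩
    by_contra h1
    obtain ⟨k, hk⟩ : ∃ k, n = 2 * k := ⟨n / 2, by omega⟩
    rw [hk] at h
    push_cast at h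
    have h2 : 2 * (a * k + b) = 1 := by linarith
    omega
  · intro h
    obtain ⟨k, hk⟩ : ∃ k, n = 2 * k + 1 := ⟨n / 2, by omega⟩
    refine ⟨1, -k, ?_⟩
    rw [hk]
    push_cast
    ring

private theorem cop_two_iff (v : OO) : Cop v 2 ↔ v.re % 2 = 1 ∧ v.im % 2 = 0 := by
  have h0 : Cop v 2 ↔ Nm v % 2 = 1 := icop_two (Nm v)
  rw [h0]
  unfold Nm
  have h1 : v.re ^ 2 + v.re * v.im + 2 * v.im ^ 2 = v.re * (v.re + v.im) + 2 * v.im ^ 2 := by ring
  rw [h1]
  have h2 : (v.re * (v.re + v.im) + 2 * v.im ^ 2) % 2 = (v.re * (v.re + v.im)) % 2 := by omega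
  rw [h2, Int.mul_emod]
  rcases Int.emod_two_eq_zero_or_one v.re with ha | ha <;>
    rcases Int.emod_two_eq_zero_or_one (v.re + v.im) with hb | hb <;>
    rw [ha, hb] <;> constructor <;> intro h <;> omega

private theorem pO_dvd (v : OO) : pO ∣ v ↔ (2 : ℤ) ∣ v.re := by
  constructor
  · rintro ⟨u, rfl⟩
    rw [mul_re']
    refine ⟨-u.im, ?_⟩
    unfold pO
    ring
  · rintro ⟨k, hk⟩
    refine ⟨⟨v.im + k, -k⟩, ?_⟩
    apply oo_ext
    · rw [mul_re']
      unfold pO
      simp only
      rw [hk]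
      ring
    · rw [mul_im']
      unfold pO
      simp only
      ring

private theorem pbO_dvd (v : OO) : pbO ∣ v ↔ (2 : ℤ) ∣ v.re + v.im := by
  constructor
  · rintro ⟨u, rfl⟩
    rw [mul_re', mul_im']
    refine ⟨u.im, ?_⟩
    unfold pbO
    ring
  · rintro ⟨k, hk⟩
    have hk' : v.re = 2 * k - v.im := by linarith
    refine ⟨⟨-v.im, k⟩, ?_⟩
    apply oo_ext
    · rw [mul_re']
      unfold pbO
      simp only
      rw [hk']
      ring
    · rw [mul_im']
      unfold pbO
      simp only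
      ring

/-- Coprimality to 2. -/
theorem UCop_two (v : OO) : Cop v 2 ↔ (2 : OO) ∣ v - 1 := by
  rw [cop_two_iff]
  constructor
  · rintro ⟨h1, h2⟩
    refine ⟨⟨v.re / 2, v.im / 2⟩, ?_⟩
    apply oo_ext
    · rw [mul_re', two_re, two_im]
      change v.re - 1 = _
      simp only
      omega
    · rw [mul_im', two_re, two_im]
      change v.im - 0 = _
      simp only
      omega
  · rintro ⟨u, hu⟩
    have h1 := congrArg QuadraticAlgebra.re hu
    have h2 := congrArg QuadraticAlgebra.im hu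
    rw [mul_re', two_re, two_im] at h1
    rw [mul_im', two_re, two_im] at h2
    change v.re - 1 = _ at h1
    change v.im - 0 = _ at h2
    constructor <;> omega

/-- Coprimality to 2 by the two primes above 2. -/
theorem UCop_two' (v : OO) : Cop v 2 ↔ ¬ pO ∣ v ∧ ¬ pbO ∣ v := by
  rw [cop_two_iff, pO_dvd, pbO_dvd]
  omega

/-- Coprimality. -/
theorem tUCop : S_UCop := by
  refine ⟨UCop_iff, UCop_mul, fun v u N => UCop_add v u N, UCop_mul_right, UCop_two, UCop_two', ?_,
    fun v => ⟨pO_dvd v, pbO_dvd v⟩⟩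
  intro v
  have h := UCop_iff v 2
  rw [Nat.cast_ofNat] at h
  exact h.symm

end Pool.Agent.DI
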