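import Pool.Agent.Lib.DI.Util.Spec

/-!
# Theorem DI, Util, module UEx (helper86): systems of representatives and torsion points
-/

set_option autoImplicit false

open scoped Pointwise Topology nonZeroDivisors
open Filter

noncomputable section

namespace Pool.Agent.DI

open Pool.Agent.MuZ

/-! ## The ring `O` -/

/-- The embedding of `O` into `ℂ` is injective. -/
theorem UEx_toC_inj : Function.Injective toC := by
  rw [injective_iff_map_eq_zero]
  intro v hv
  have h0 : (v.re : ℂ) + v.im * wC = 0 := hv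
  have hs : 0 < √(7 : ℝ) := Real.sqrt_pos.2 (by norm_num)
  have h1 := congrArg Complex.im h0
  have h2 := congrArg Complex.re h0
  simp only [wC, Complex.add_im, Complex.mul_im, Complex.intCast_im, Complex.intCast_re,
    Complex.zero_im, zero_add, zero_mul, add_zero] at h1
  simp only [wC, Complex.add_re, Complex.mul_re, Complex.intCast_im, Complex.intCast_re,
    Complex.zero_re, zero_mul, sub_zero] at h2
  have h3 : (v.im : ℝ) = 0 := by
    rcases mul_eq_zero.1 h1 with h | h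
    · exact h
    · linarith
  have h4 : (v.re : ℝ) = 0 := by
    rw [h3] at h2
    linarith
  have h5 : v.im = 0 := by exact_mod_cast h3
  have h6 : v.re = 0 := by exact_mod_cast h4
  exact QuadraticAlgebra.ext h6 h5

theorem UEx_toC_ne {μ : OO} (hμ : μ ≠ 0) : toC μ ≠ 0 := fun h =>
  hμ (UEx_toC_inj (by rw [h, map_zero]))

theorem UEx_cancel {μ x y : OO} (hμ : μ ≠ 0) (h : μ * x = μ * y) : x = y := by
  have h1 := congrArg toC h
  rw [map_mul, map_mul] at h1
  exact UEx_toC_inj (mul_left_cancel₀ (UEx_toC_ne hμ) h1)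

theorem UEx_nat_ne {n : ℕ} (hn : 0 < n) : (n : OO) ≠ 0 := by
  intro h
  have h1 := congrArg QuadraticAlgebra.re h
  rw [QuadraticAlgebra.re_natCast, QuadraticAlgebra.re_zero] at h1
  have h2 : n = 0 := by exact_mod_cast h1
  omega

theorem UEx_Nm_pos {μ : OO} (hμ : μ ≠ 0) : 0 < Nm μ := by
  unfold Nm
  rcases eq_or_ne μ.im 0 with h | h
  · have h1 : μ.re ≠ 0 := fun h2 => hμ (QuadraticAlgebra.ext h2 h)
    rw [h]
    have := sq_pos_of_ne_zero h1
    nlinarith
  · have := sq_pos_of_ne_zero h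
    nlinarith [sq_nonneg (2 * μ.re + μ.im)]

theorem UEx_Nm_eq (μ : OO) : QuadraticAlgebra.norm μ = Nm μ := by
  rw [QuadraticAlgebra.norm_def]
  unfold Nm
  ring

theorem UEx_mul_cj (μ : OO) : μ * cjO μ = ((Nm μ : ℤ) : OO) := by
  apply QuadraticAlgebra.ext
  · rw [QuadraticAlgebra.re_mul, QuadraticAlgebra.re_intCast, Int.cast_id]
    unfold cjO Nm
    ring
  · rw [QuadraticAlgebra.im_mul, QuadraticAlgebra.im_intCast]
    unfold cjO
    ring

/-- The index of `μ O` in `O` is the norm of `μ`. -/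
theorem UEx_card (μ : OO) (hμ : μ ≠ 0) :
    Nat.card (OO ⧸ LinearMap.range (LinearMap.mulLeft ℤ μ)) = (Nm μ).natAbs := by
  have hinj : Function.Injective (LinearMap.mulLeft ℤ μ) := fun x y h => UEx_cancel hμ h
  have h1 := Submodule.natAbs_det_equiv (LinearMap.range (LinearMap.mulLeft ℤ μ))
    (LinearEquiv.ofInjective _ hinj)
  rw [← h1]
  have h2 := QuadraticAlgebra.det_toLinearMap_eq_norm μ
  rw [UEx_Nm_eq] at h2
  rw [← h2]
  rfl

private theorem UEx_finite (μ : OO) (hμ : μ ≠ 0) :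
    Finite (OO ⧸ LinearMap.range (LinearMap.mulLeft ℤ μ)) := by
  apply Nat.finite_of_card_ne_zero
  rw [UEx_card μ hμ]
  have := UEx_Nm_pos hμ
  omega

private theorem UEx_mk_eq (μ v u : OO) :
    (Submodule.Quotient.mk v : OO ⧸ LinearMap.range (LinearMap.mulLeft ℤ μ)) =
      Submodule.Quotient.mk u ↔ ∃ t : OO, v - u = μ * t := by
  rw [Submodule.Quotient.eq, LinearMap.mem_range]
  constructor
  · rintro ⟨t, ht⟩
    exact ⟨t, ht.symm⟩
  · rintro ⟨t, ht⟩
    exact ⟨t, ht.symm⟩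

/-! ## Choice of representatives -/

/-- Finitely many elements with a property represent all classes. -/
private theorem UEx_rep (μ : OO) (hμ : μ ≠ 0) (Q : OO → Prop) :
    ∃ T : Finset OO, (∀ t ∈ T, Q t) ∧ ∀ v : OO, Q v → ∃ t ∈ T, ∃ s : OO, v - t = μ * s := by
  classical
  haveI := UEx_finite μ hμ
  let q : OO → OO ⧸ LinearMap.range (LinearMap.mulLeft ℤ μ) := fun v => Submodule.Quotient.mk v
  have hfin : (q '' {v | Q v}).Finite := Set.toFinite _
  have h1 : (hfin.toFinset : Set (OO ⧸ LinearMap.range (LinearMap.mulLeft ℤ μ))) ⊆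
      q '' {v | Q v} := by
    rw [Set.Finite.coe_toFinset]
  obtain ⟨T, hT, hTq⟩ := Finset.subset_set_image_iff.1 h1
  refine ⟨T, fun t ht => hT ht, fun v hv => ?_⟩
  have h2 : q v ∈ T.image q := by
    rw [hTq, Set.Finite.mem_toFinset]
    exact ⟨v, hv, rfl⟩
  obtain ⟨t, ht, htq⟩ := Finset.mem_image.1 h2
  exact ⟨t, ht, (UEx_mk_eq μ v t).1 htq.symm⟩

/-- One element of every class of a reflexive and symmetric relation on a finite set. -/
private theorem UEx_red {α : Type} (r : α → α → Prop) (hr : ∀ a, r a a)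
    (hs : ∀ a b, r a b → r b a) (T : Finset α) :
    ∃ S : Finset α, S ⊆ T ∧ (∀ t ∈ T, ∃ u ∈ S, r t u) ∧ ∀ u ∈ S, ∀ u' ∈ S, r u u' → u = u' := by
  classical
  induction T using Finset.induction with
  | empty => exact ⟨∅, Finset.empty_subset _, by simp, by simp⟩
  | insert a T _ ih =>
    obtain ⟨S, hST, hex, huni⟩ := ih
    by_cases h : ∃ u ∈ S, r a u
    · refine ⟨S, hST.trans (Finset.subset_insert a T), ?_, huni⟩
      intro t ht
      rcases Finset.mem_insert.1 ht with rfl | ht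
      · exact h
      · exact hex t ht
    · push Not at h
      refine ⟨insert a S, Finset.insert_subset_insert a hST, ?_, ?_⟩
      · intro t ht
        rcases Finset.mem_insert.1 ht with rfl | ht
        · exact ⟨t, Finset.mem_insert_self _ _, hr t⟩
        · obtain ⟨u, hu, h2⟩ := hex t ht
          exact ⟨u, Finset.mem_insert_of_mem hu, h2⟩
      · intro u hu u' hu' h2
        rcases Finset.mem_insert.1 hu with h3 | h3
        · rcases Finset.mem_insert.1 hu' with h4 | h4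
          · rw [h3, h4]
          · rw [h3] at h2
            exact absurd h2 (h u' h4)
        · rcases Finset.mem_insert.1 hu' with h4 | h4
          · rw [h4] at h2
            exact absurd (hs _ _ h2) (h u h3)
          · exact huni u h3 u' h4 h2

/-! ## Lattice points and torsion points -/

theorem UEx_Lat_zero : Lat 0 := ⟨0, (map_zero toC).symm⟩

theorem UEx_Lat_neg {z : ℂ} (hz : Lat z) : Lat (-z) := by
  obtain ⟨v, rfl⟩ := hz
  exact ⟨-v, (map_neg toC v).symm⟩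

theorem UEx_Lat_add {z z' : ℂ} (hz : Lat z) (hz' : Lat z') : Lat (z + z') := by
  obtain ⟨v, rfl⟩ := hz
  obtain ⟨v', rfl⟩ := hz'
  exact ⟨v + v', (map_add toC v v').symm⟩

theorem UEx_Lat_sub {z z' : ℂ} (hz : Lat z) (hz' : Lat z') : Lat (z - z') := by
  obtain ⟨v, rfl⟩ := hz
  obtain ⟨v', rfl⟩ := hz'
  exact ⟨v - v', (map_sub toC v v').symm⟩

theorem UEx_Lat_mul (μ : OO) {z : ℂ} (hz : Lat z) : Lat (toC μ * z) := by
  obtain ⟨v, rfl⟩ := hz
  exact ⟨μ * v, (map_mul toC μ v).symm⟩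

theorem UEx_Lat_div {μ : OO} (z : ℂ) (hμ : μ ≠ 0) :
    Lat (toC μ * z) ↔ ∃ v : OO, z = toC v / toC μ := by
  have h0 := UEx_toC_ne hμ
  constructor
  · rintro ⟨v, hv⟩
    exact ⟨v, by rw [← hv, mul_div_cancel_left₀ _ h0]⟩
  · rintro ⟨v, rfl⟩
    exact ⟨v, by rw [mul_div_cancel₀ _ h0]⟩

theorem UEx_Lat_nat (v : OO) {n : ℕ} (hn : 0 < n) : Lat (toC v / n) ↔ (n : OO) ∣ v := by
  have h0 : (n : ℂ) ≠ 0 := Nat.cast_ne_zero.2 hn.ne'
  constructor
  · rintro ⟨u, hu⟩
    refine ⟨u, UEx_toC_inj ?_⟩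
    rw [map_mul, map_natCast, ← hu, mul_div_cancel₀ _ h0]
  · rintro ⟨u, rfl⟩
    refine ⟨u, ?_⟩
    rw [map_mul, map_natCast, mul_div_cancel_left₀ _ h0]

theorem UEx_Tor_neg {z : ℂ} (hz : Tor z) : Tor (-z) := by
  obtain ⟨v, n, hn, rfl⟩ := hz
  exact ⟨-v, n, hn, by rw [map_neg, neg_div]⟩

theorem UEx_Tor_add {z z' : ℂ} (hz : Tor z) (hz' : Tor z') : Tor (z + z') := by
  obtain ⟨v, n, hn, rfl⟩ := hz
  obtain ⟨v', n', hn', rfl⟩ := hz'
  refine ⟨v * n' + v' * n, n * n', Nat.mul_pos hn hn', ?_⟩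
  have h0 : (n : ℂ) ≠ 0 := Nat.cast_ne_zero.2 hn.ne'
  have h1 : (n' : ℂ) ≠ 0 := Nat.cast_ne_zero.2 hn'.ne'
  rw [map_add, map_mul, map_mul, map_natCast, map_natCast, Nat.cast_mul,
    div_add_div _ _ h0 h1, mul_comm (toC v') (n : ℂ)]

theorem UEx_Tor_mul (μ : OO) {z : ℂ} (hz : Tor z) : Tor (toC μ * z) := by
  obtain ⟨v, n, hn, rfl⟩ := hz
  exact ⟨μ * v, n, hn, by rw [map_mul, mul_div_assoc]⟩

theorem UEx_Lat_Tor {z : ℂ} (hz : Lat z) : Tor z := by
  obtain ⟨v, rfl⟩ := hz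
  exact ⟨v, 1, one_pos, by rw [Nat.cast_one, div_one]⟩

theorem UEx_Tor_of {μ : OO} {z : ℂ} (hμ : μ ≠ 0) (h : Lat (toC μ * z)) : Tor z := by
  obtain ⟨v, rfl⟩ := (UEx_Lat_div z hμ).1 h
  have h1 := UEx_Nm_pos hμ
  have h2 : toC μ * toC (cjO μ) = ((Nm μ).toNat : ℂ) := by
    rw [← map_mul, UEx_mul_cj, map_intCast]
    have h3 : ((Nm μ).toNat : ℤ) = Nm μ := Int.toNat_of_nonneg h1.le
    rw [← Int.cast_natCast, h3]
  have h4 : toC (cjO μ) ≠ 0 := by
    intro h5
    rw [h5, mul_zero] at h2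
    have h6 : (Nm μ).toNat = 0 := by exact_mod_cast h2.symm
    omega
  refine ⟨v * cjO μ, (Nm μ).toNat, by omega, ?_⟩
  rw [← h2, map_mul, mul_div_mul_right _ _ h4]

/-! ## Systems of representatives -/

theorem UEx_IsSys (μ : OO) (hμ : μ ≠ 0) : ∃ R : Finset ℂ, IsSys μ R := by
  classical
  have h0 := UEx_toC_ne hμ
  obtain ⟨T, -, hT⟩ := UEx_rep μ hμ (fun _ => True)
  obtain ⟨S, hST, hex, huni⟩ := UEx_red (fun z z' : ℂ => Lat (z - z'))
    (fun a => by rw [sub_self]; exact UEx_Lat_zero)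
    (fun a b h => by rw [← neg_sub]; exact UEx_Lat_neg h)
    (T.image fun v => toC v / toC μ)
  refine ⟨S, ⟨?_, ?_, huni⟩⟩
  · intro u hu
    obtain ⟨v, -, rfl⟩ := Finset.mem_image.1 (hST hu)
    exact (UEx_Lat_div _ hμ).2 ⟨v, rfl⟩
  · intro z hz
    obtain ⟨v, rfl⟩ := (UEx_Lat_div z hμ).1 hz
    obtain ⟨t, ht, s, hs⟩ := hT v trivial
    obtain ⟨u, hu, h1⟩ := hex (toC t / toC μ) (Finset.mem_image_of_mem _ ht)
    refine ⟨u, hu, ?_⟩
    have h2 : toC v / toC μ - u = toC s + (toC t / toC μ - u) := by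
      have h3 : toC v = toC t + toC μ * toC s := by
        rw [← map_mul, ← hs, ← map_add]
        ring_nf
      rw [h3, add_div, mul_div_cancel_left₀ _ h0]
      ring
    rw [h2]
    exact UEx_Lat_add ⟨s, rfl⟩ h1

theorem UEx_IsHalf (μ : OO) (hμ : μ ≠ 0) : ∃ S : Finset ℂ, IsHalf μ S := by
  classical
  obtain ⟨R, hR⟩ := UEx_IsSys μ hμ
  obtain ⟨S, hST, hex, huni⟩ := UEx_red (fun z z' : ℂ => Lat (z - z') ∨ Lat (z + z'))
    (fun a => Or.inl (by rw [sub_self]; exact UEx_Lat_zero))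
    (fun a b h => by
      rcases h with h | h
      · exact Or.inl (by rw [← neg_sub]; exact UEx_Lat_neg h)
      · exact Or.inr (by rw [add_comm]; exact h))
    (R.filter fun u => ¬ Lat u)
  refine ⟨S, ⟨?_, ?_, huni⟩⟩
  · intro u hu
    have h1 := Finset.mem_filter.1 (hST hu)
    exact ⟨hR.mem u h1.1, h1.2⟩
  · intro z hz hz'
    obtain ⟨w, hw, h1⟩ := hR.ex z hz
    have h2 : ¬ Lat w := by
      intro h3
      apply hz'
      have h4 := UEx_Lat_add h1 h3
      rwa [sub_add_cancel] at h4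
    obtain ⟨u, hu, h3⟩ := hex w (Finset.mem_filter.2 ⟨hw, h2⟩)
    refine ⟨u, hu, ?_⟩
    rcases h3 with h3 | h3
    · left
      have h4 := UEx_Lat_add h1 h3
      rwa [sub_add_sub_cancel] at h4
    · right
      have h4 := UEx_Lat_add h1 h3
      have h5 : z - w + (w + u) = z + u := by ring
      rwa [h5] at h4

theorem UEx_IsRep (f N : ℕ) (hf : 0 < f) : ∃ T : Finset OO, IsRep f N T := by
  classical
  have hm : ((f * 2 ^ N : ℕ) : OO) ≠ 0 := UEx_nat_ne (Nat.mul_pos hf (pow_pos two_pos N))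
  obtain ⟨T, hTP, hT⟩ := UEx_rep _ hm (fun v => HN f N v)
  obtain ⟨S, hST, hex, huni⟩ := UEx_red (fun v v' : OO => ((f * 2 ^ N : ℕ) : OO) ∣ v - v' ∨
      ((f * 2 ^ N : ℕ) : OO) ∣ v + v')
    (fun a => Or.inl (by rw [sub_self]; exact dvd_zero _))
    (fun a b h => by
      rcases h with h | h
      · exact Or.inl (by rw [← neg_sub]; exact (dvd_neg).2 h)
      · exact Or.inr (by rw [add_comm]; exact h))
    T
  refine ⟨S, ⟨fun h hh => hTP h (hST hh), ?_, huni⟩⟩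
  intro v hv
  obtain ⟨t, ht, s, hs⟩ := hT v hv
  obtain ⟨u, hu, h1⟩ := hex t ht
  have h0 : ((f * 2 ^ N : ℕ) : OO) ∣ v - t := ⟨s, hs⟩
  refine ⟨u, hu, ?_⟩
  rcases h1 with h1 | h1
  · left
    have h2 := dvd_add h0 h1
    rwa [sub_add_sub_cancel] at h2
  · right
    have h2 := dvd_add h0 h1
    have h3 : v - t + (t + u) = v + u := by ring
    rwa [h3] at h2

theorem UEx_IsSys_card (μ : OO) (R : Finset ℂ) (hμ : μ ≠ 0) (hR : IsSys μ R) :
    (R.card : ℤ) = Nm μ := by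
  classical
  have h0 := UEx_toC_ne hμ
  choose! V hV using fun (u : ℂ) (hu : u ∈ R) => hR.mem u hu
  let Φ : R → OO ⧸ LinearMap.range (LinearMap.mulLeft ℤ μ) :=
    fun u => Submodule.Quotient.mk (V u)
  have hΦ : Function.Bijective Φ := by
    constructor
    · rintro ⟨u, hu⟩ ⟨u', hu'⟩ h
      obtain ⟨t, ht⟩ := (UEx_mk_eq μ _ _).1 h
      apply Subtype.ext
      apply hR.uni u hu u' hu'
      refine ⟨t, mul_left_cancel₀ h0 ?_⟩
      have h1 := hV u hu
      have h2 := hV u' hu'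
      rw [mul_sub, h1, h2, ← map_sub, ← map_mul]
      exact congrArg toC ht
    · intro x
      obtain ⟨v, rfl⟩ := Submodule.Quotient.mk_surjective _ x
      obtain ⟨u, hu, t, ht⟩ := hR.ex (toC v / toC μ) ((UEx_Lat_div _ hμ).2 ⟨v, rfl⟩)
      refine ⟨⟨u, hu⟩, (UEx_mk_eq μ _ _).2 ⟨-t, UEx_toC_inj ?_⟩⟩
      have h1 := hV u hu
      rw [map_sub, ← h1, map_mul, map_neg, ← ht]
      field_simp
      ring
  have h1 : Nat.card R = (Nm μ).natAbs := by
    rw [Nat.card_eq_of_bijective Φ hΦ, UEx_card μ hμ]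
  rw [Nat.card_eq_fintype_card, Fintype.card_coe] at h1
  rw [h1]
  exact Int.natAbs_of_nonneg (UEx_Nm_pos hμ).le

theorem tUEx : S_UEx :=
  ⟨UEx_IsSys, UEx_IsHalf, UEx_IsRep, fun _ z hμ => UEx_Lat_div z hμ,
    fun z z' hz hz' => ⟨UEx_Tor_add hz hz', by
      rw [sub_eq_add_neg]
      exact UEx_Tor_add hz (UEx_Tor_neg hz'), UEx_Tor_neg hz⟩,
    fun μ _ hz => UEx_Tor_mul μ hz, fun _ hz => UEx_Lat_Tor hz,
    fun _ _ hμ h => UEx_Tor_of hμ h,
    fun _ _ hz hz' => ⟨UEx_Lat_add hz hz', UEx_Lat_sub hz hz', UEx_Lat_neg hz⟩,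
    fun μ _ hz => UEx_Lat_mul μ hz, UEx_Lat_zero, fun v _ hn => UEx_Lat_nat v hn,
    fun μ R hμ hR => UEx_IsSys_card μ R hμ hR⟩

end Pool.Agent.DI
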