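import Pool.Agent.Lib.DI.Util.Spec

/-!
# Theorem DI, utilities, module UPid: `O` is a Euclidean domain
-/

set_option autoImplicit false

open scoped Pointwise Topology nonZeroDivisors
open Filter

noncomputable section

namespace Pool.Agent.DI

open Pool.Agent.MuZ

private theorem upMul (v u : OO) : Nm (v * u) = Nm v * Nm u := by
  have h1 : (v * u).re = v.re * u.re + -2 * v.im * u.im := QuadraticAlgebra.re_mul v u
  have h2 : (v * u).im = v.re * u.im + v.im * u.re + 1 * v.im * u.im := QuadraticAlgebra.im_mul v u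
  unfold Nm
  rw [h1, h2]
  ring

private theorem upFour (v : OO) : 4 * Nm v = (2 * v.re + v.im) ^ 2 + 7 * v.im ^ 2 := by
  unfold Nm
  ring

private theorem upNonneg (v : OO) : 0 ≤ Nm v := by
  have h := upFour v
  nlinarith [sq_nonneg (2 * v.re + v.im), sq_nonneg v.im]

private theorem upZero (v : OO) : Nm v = 0 ↔ v = 0 := by
  constructor
  · intro h
    have h1 := upFour v
    rw [h] at h1
    have h2 : v.im = 0 := by
      have : v.im ^ 2 = 0 := by nlinarith [sq_nonneg (2 * v.re + v.im), sq_nonneg v.im]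
      exact pow_eq_zero_iff (two_ne_zero) |>.1 this
    rw [h2] at h1
    have h3 : v.re = 0 := by
      have : v.re ^ 2 = 0 := by nlinarith
      exact pow_eq_zero_iff (two_ne_zero) |>.1 this
    exact QuadraticAlgebra.ext h3 h2
  · rintro rfl
    rfl

private theorem upCjNm (v : OO) : Nm (cjO v) = Nm v := by
  change (v.re + v.im) ^ 2 + (v.re + v.im) * (-v.im) + 2 * (-v.im) ^ 2 = _
  unfold Nm
  ring

theorem UPid_dom : IsDomain OO := by
  haveI : NoZeroDivisors OO := ⟨fun {a b} h => by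
    have h1 : Nm a * Nm b = 0 := by
      rw [← upMul, h]
      rfl
    rcases mul_eq_zero.mp h1 with h2 | h2
    · exact Or.inl ((upZero a).mp h2)
    · exact Or.inr ((upZero b).mp h2)⟩
  haveI : Nontrivial OO := ⟨0, 1, fun h => by
    have h1 : (0 : OO).re = (1 : OO).re := congrArg QuadraticAlgebra.re h
    have h2 : (0 : OO).re = 0 := rfl
    have h3 : (1 : OO).re = 1 := rfl
    rw [h2, h3] at h1
    exact absurd h1 (by norm_num)⟩
  exact NoZeroDivisors.to_isDomain OO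

/-- Rounding a half integer. -/
private theorem upRound2 (x n : ℤ) (hn : 0 < n) : ∃ k : ℤ, -n ≤ x - 2 * (n * k) ∧
    x - 2 * (n * k) ≤ n := by
  refine ⟨(x + n) / (2 * n), ?_, ?_⟩
  · have h := Int.emod_nonneg (x + n) (show (2 * n : ℤ) ≠ 0 by omega)
    have h1 := Int.emod_add_mul_ediv (x + n) (2 * n)
    nlinarith
  · have h := Int.emod_lt_of_pos (x + n) (show (0 : ℤ) < 2 * n by omega)
    have h1 := Int.emod_add_mul_ediv (x + n) (2 * n)
    nlinarith

theorem UPid_div (a b : OO) (hb : b ≠ 0) : ∃ q : OO, Nm (a - b * q) < Nm b := by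
  have hn : 0 < Nm b := lt_of_le_of_ne (upNonneg b) fun h => hb ((upZero b).mp h.symm)
  obtain ⟨n, hnd⟩ : ∃ n : ℤ, n = Nm b := ⟨_, rfl⟩
  obtain ⟨c, hc⟩ : ∃ c : OO, c = a * cjO b := ⟨_, rfl⟩
  obtain ⟨k, hk1, hk2⟩ := upRound2 (2 * c.im) n (hnd ▸ hn)
  obtain ⟨m, hm1, hm2⟩ := upRound2 (2 * c.re + (c.im - n * k)) n (hnd ▸ hn)
  refine ⟨⟨m, k⟩, ?_⟩
  have h1 : (a - b * ⟨m, k⟩) * cjO b = ⟨c.re - n * m, c.im - n * k⟩ := by
    have h2 : (a - b * ⟨m, k⟩) * cjO b = c - (b * cjO b) * ⟨m, k⟩ := by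
      rw [hc]
      ring
    have h3 : b * cjO b = ((n : ℤ) : OO) := by
      have h4 : (b * cjO b).re = b.re * (cjO b).re + -2 * b.im * (cjO b).im :=
        QuadraticAlgebra.re_mul b (cjO b)
      have h5 : (b * cjO b).im = b.re * (cjO b).im + b.im * (cjO b).re + 1 * b.im * (cjO b).im :=
        QuadraticAlgebra.im_mul b (cjO b)
      have h6 : (cjO b).re = b.re + b.im := rfl
      have h7 : (cjO b).im = -b.im := rfl
      rw [h6, h7] at h4 h5
      apply QuadraticAlgebra.ext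
      · rw [h4]
        change _ = n
        rw [hnd]
        unfold Nm
        ring
      · rw [h5]
        change _ = (0 : ℤ)
        ring
    rw [h2, h3]
    apply QuadraticAlgebra.ext
    · change c.re - (((n : ℤ) : OO) * ⟨m, k⟩).re = c.re - n * m
      have h4 : (((n : ℤ) : OO) * ⟨m, k⟩).re = n * m + -2 * 0 * k :=
        QuadraticAlgebra.re_mul ((n : ℤ) : OO) ⟨m, k⟩
      rw [h4]
      ring
    · change c.im - (((n : ℤ) : OO) * ⟨m, k⟩).im = c.im - n * k
      have h4 : (((n : ℤ) : OO) * ⟨m, k⟩).im = n * k + 0 * m + 1 * 0 * k :=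
        QuadraticAlgebra.im_mul ((n : ℤ) : OO) ⟨m, k⟩
      rw [h4]
      ring
  have h2 : Nm (a - b * ⟨m, k⟩) * n = Nm (⟨c.re - n * m, c.im - n * k⟩ : OO) := by
    rw [← h1, upMul, upCjNm, hnd]
  have h3 := upFour (⟨c.re - n * m, c.im - n * k⟩ : OO)
  rw [← h2] at h3
  change 4 * (Nm (a - b * ⟨m, k⟩) * n) = (2 * (c.re - n * m) + (c.im - n * k)) ^ 2 +
    7 * (c.im - n * k) ^ 2 at h3
  have hn' : 0 < n := hnd ▸ hn
  rw [← hnd]
  obtain ⟨X, hX⟩ : ∃ X : ℤ, X = 2 * (c.re - n * m) + (c.im - n * k) := ⟨_, rfl⟩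
  obtain ⟨Y, hY⟩ : ∃ Y : ℤ, Y = c.im - n * k := ⟨_, rfl⟩
  rw [← hX, ← hY] at h3
  have hX1 : -n ≤ X := by rw [hX]; linarith
  have hX2 : X ≤ n := by rw [hX]; linarith
  have hY1 : -n ≤ 2 * Y := by rw [hY]; linarith
  have hY2 : 2 * Y ≤ n := by rw [hY]; linarith
  have hXs : X ^ 2 ≤ n ^ 2 := by
    rw [sq_le_sq, abs_of_pos hn']
    exact abs_le.mpr ⟨hX1, hX2⟩
  have hYs : (2 * Y) ^ 2 ≤ n ^ 2 := by
    rw [sq_le_sq, abs_of_pos hn']
    exact abs_le.mpr ⟨hY1, hY2⟩
  by_contra h4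
  rw [not_lt] at h4
  nlinarith [mul_le_mul_of_nonneg_right h4 hn'.le]

theorem UPid_pid : IsPrincipalIdealRing OO := by
  haveI := UPid_dom
  refine ⟨fun I => ⟨?_⟩⟩
  by_cases hI : I = ⊥
  · exact ⟨0, by rw [hI]; simp⟩
  · obtain ⟨b0, hb0, hb0n⟩ := Submodule.exists_mem_ne_zero_of_ne_bot hI
    obtain ⟨b, ⟨hb, hbn⟩, hmin⟩ := WellFounded.has_min
      (measure fun v : OO => (Nm v).toNat).wf {v : OO | v ∈ I ∧ v ≠ 0} ⟨b0, hb0, hb0n⟩
    refine ⟨b, le_antisymm ?_ ?_⟩
    · intro a ha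
      obtain ⟨q, hq⟩ := UPid_div a b hbn
      have h1 : a - b * q ∈ I := I.sub_mem ha (I.mul_mem_right q hb)
      by_cases h2 : a - b * q = 0
      · rw [Submodule.mem_span_singleton]
        refine ⟨q, ?_⟩
        rw [smul_eq_mul, mul_comm]
        exact (sub_eq_zero.mp h2).symm
      · exfalso
        refine hmin _ ⟨h1, h2⟩ ?_
        change (Nm (a - b * q)).toNat < (Nm b).toNat
        have h3 := upNonneg (a - b * q)
        omega
    · rw [Submodule.span_singleton_le_iff_mem]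
      exact hb

theorem tUPid : S_UPid := ⟨UPid_dom, UPid_pid, UPid_div⟩

end Pool.Agent.DI
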