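import Pool.Agent.Lib.DI.Util.Spec

/-!
# Theorem DI, utilities, module UNm: the norm of `O`
-/

set_option autoImplicit false

open scoped Pointwise Topology nonZeroDivisors
open Filter

noncomputable section

namespace Pool.Agent.DI

open Pool.Agent.MuZ

theorem UNm_mul (v u : OO) : Nm (v * u) = Nm v * Nm u := by
  have h1 : (v * u).re = v.re * u.re + -2 * v.im * u.im := QuadraticAlgebra.re_mul v u
  have h2 : (v * u).im = v.re * u.im + v.im * u.re + 1 * v.im * u.im := QuadraticAlgebra.im_mul v u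
  unfold Nm
  rw [h1, h2]
  ring

theorem UNm_four (v : OO) : 4 * Nm v = (2 * v.re + v.im) ^ 2 + 7 * v.im ^ 2 := by
  unfold Nm
  ring

theorem UNm_nonneg (v : OO) : 0 ≤ Nm v := by
  have h := UNm_four v
  nlinarith [sq_nonneg (2 * v.re + v.im), sq_nonneg v.im]

theorem UNm_zero (v : OO) : Nm v = 0 ↔ v = 0 := by
  constructor
  · intro h
    have h1 := UNm_four v
    rw [h] at h1
    have h2 : v.im = 0 := by
      have : v.im ^ 2 = 0 := by nlinarith [sq_nonneg (2 * v.re + v.im), sq_nonneg v.im]
      exact pow_eq_zero_iff (two_ne_zero) |>.1 this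
    rw [h2] at h1
    have h3 : v.re = 0 := by
      have : v.re ^ 2 = 0 := by nlinarith
      exact pow_eq_zero_iff (two_ne_zero) |>.1 this
    exact QuadraticAlgebra.ext h3 h2
  · rintro rfl
    rfl

theorem UNm_int (n : ℤ) : Nm (n : OO) = n ^ 2 := by
  have h1 : (n : OO).re = n := rfl
  have h2 : (n : OO).im = 0 := rfl
  unfold Nm
  rw [h1, h2]
  ring

theorem UNm_cj (v : OO) : ((Nm v : ℤ) : OO) = v * cjO v := by
  have h1 : (v * cjO v).re = v.re * (cjO v).re + -2 * v.im * (cjO v).im :=
    QuadraticAlgebra.re_mul v (cjO v)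
  have h2 : (v * cjO v).im = v.re * (cjO v).im + v.im * (cjO v).re + 1 * v.im * (cjO v).im :=
    QuadraticAlgebra.im_mul v (cjO v)
  have h3 : (cjO v).re = v.re + v.im := rfl
  have h4 : (cjO v).im = -v.im := rfl
  rw [h3, h4] at h1 h2
  apply QuadraticAlgebra.ext
  · rw [h1]
    change Nm v = _
    unfold Nm
    ring
  · rw [h2]
    change (0 : ℤ) = _
    ring

theorem UNm_cjmul (v u : OO) : cjO (v * u) = cjO v * cjO u := by
  have h1 : (v * u).re = v.re * u.re + -2 * v.im * u.im := QuadraticAlgebra.re_mul v u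
  have h2 : (v * u).im = v.re * u.im + v.im * u.re + 1 * v.im * u.im := QuadraticAlgebra.im_mul v u
  have h3 : (cjO v * cjO u).re = (cjO v).re * (cjO u).re + -2 * (cjO v).im * (cjO u).im :=
    QuadraticAlgebra.re_mul _ _
  have h4 : (cjO v * cjO u).im =
      (cjO v).re * (cjO u).im + (cjO v).im * (cjO u).re + 1 * (cjO v).im * (cjO u).im :=
    QuadraticAlgebra.im_mul _ _
  apply QuadraticAlgebra.ext
  · rw [h3]
    change (v * u).re + (v * u).im = (v.re + v.im) * (u.re + u.im) + -2 * (-v.im) * (-u.im)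
    rw [h1, h2]
    ring
  · rw [h4]
    change -(v * u).im = (v.re + v.im) * (-u.im) + (-v.im) * (u.re + u.im) + 1 * (-v.im) * (-u.im)
    rw [h2]
    ring

theorem UNm_cjnm (v : OO) : Nm (cjO v) = Nm v := by
  change (v.re + v.im) ^ 2 + (v.re + v.im) * (-v.im) + 2 * (-v.im) ^ 2 = _
  unfold Nm
  ring

theorem UNm_cjcj (v : OO) : cjO (cjO v) = v := by
  apply QuadraticAlgebra.ext
  · change v.re + v.im + -v.im = v.re
    ring
  · change - -v.im = v.im
    ring

theorem UNm_norm (v : OO) : ‖toC v‖ ^ 2 = (Nm v : ℝ) := by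
  have h : (√7 : ℝ) * √7 = 7 := Real.mul_self_sqrt (by norm_num)
  rw [← Complex.normSq_eq_norm_sq, toC_apply, Complex.normSq_apply]
  have h1 : ((v.re : ℂ) + v.im * wC).re = v.re + v.im * (1 / 2) := by
    simp [wC]
  have h2 : ((v.re : ℂ) + v.im * wC).im = v.im * (√7 / 2) := by
    simp [wC]
  rw [h1, h2]
  unfold Nm
  push_cast
  linear_combination ((v.im : ℝ) ^ 2 / 4) * h

theorem UNm_toC : Function.Injective toC := by
  rw [injective_iff_map_eq_zero]
  intro v hv
  have h := UNm_norm v
  rw [hv, norm_zero] at h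
  have h2 : Nm v = 0 := by
    have : (Nm v : ℝ) = 0 := by
      rw [← h]
      norm_num
    exact_mod_cast this
  exact (UNm_zero v).1 h2

theorem UNm_toO : Function.Injective toO := by
  intro v u h
  apply UNm_toC
  rw [← io_toO, ← io_toO, h]

theorem UNm_conj (v : OO) : toC (cjO v) = (starRingEnd ℂ) (toC v) := by
  rw [toC_apply, toC_apply]
  have h3 : (cjO v).re = v.re + v.im := rfl
  have h4 : (cjO v).im = -v.im := rfl
  rw [h3, h4, map_add, map_mul, map_intCast, map_intCast]
  have h5 : (starRingEnd ℂ) wC = 1 - wC := by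
    apply Complex.ext
    · simp only [wC, Complex.conj_re, Complex.sub_re, Complex.one_re]
      norm_num
    · simp only [wC, Complex.conj_im, Complex.sub_im, Complex.one_im]
      ring
  rw [h5]
  push_cast
  ring

theorem UNm_unit (v : OO) : IsUnit v ↔ v = 1 ∨ v = -1 := by
  constructor
  · intro hv
    obtain ⟨u, hu⟩ := hv.exists_right_inv
    have h1 : Nm v * Nm u = 1 := by
      rw [← UNm_mul, hu]
      rfl
    have h2 : Nm v = 1 := by
      rcases Int.eq_one_or_neg_one_of_mul_eq_one h1 with h | h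
      · exact h
      · have := UNm_nonneg v
        omega
    have h3 := UNm_four v
    rw [h2] at h3
    have h4 : v.im = 0 := by
      by_contra h
      have h5 : 1 ≤ v.im ^ 2 := by
        have : 0 < v.im ^ 2 := by positivity
        omega
      nlinarith [sq_nonneg (2 * v.re + v.im)]
    rw [h4] at h3
    have h6 : v.re ^ 2 = 1 := by nlinarith
    have h7 : v.re = 1 ∨ v.re = -1 := by
      have h8 : (v.re - 1) * (v.re + 1) = 0 := by nlinarith
      rcases mul_eq_zero.1 h8 with h | h
      · left; omega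
      · right; omega
    rcases h7 with h | h
    · exact Or.inl (QuadraticAlgebra.ext h h4)
    · exact Or.inr (QuadraticAlgebra.ext h (by rw [h4]; rfl))
  · rintro (rfl | rfl)
    · exact isUnit_one
    · exact isUnit_one.neg

theorem tUNm : S_UNm :=
  ⟨UNm_mul, UNm_nonneg, UNm_zero, UNm_int, UNm_cj, UNm_cjmul, fun v => ⟨UNm_cjnm v, UNm_cjcj v⟩,
    UNm_norm, UNm_toC, UNm_toO, UNm_conj, UNm_unit⟩

end Pool.Agent.DI
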