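import Pool.Agent.Lib.DI.Util.Spec

/-!
# Theorem DI: sums over `O / m` (`S_USum`)
-/

open scoped Pointwise Topology nonZeroDivisors
open Filter

noncomputable section

namespace Pool.Agent.DI

open Pool.Agent.MuZ

private theorem nmul (m : ℕ) (u : OO) : (m : OO) * u = ⟨m * u.re, m * u.im⟩ := by
  apply QuadraticAlgebra.ext
  · rw [QuadraticAlgebra.re_mul, QuadraticAlgebra.re_natCast, QuadraticAlgebra.im_natCast]
    simp
  · rw [QuadraticAlgebra.im_mul, QuadraticAlgebra.re_natCast, QuadraticAlgebra.im_natCast]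
    simp

/-- Divisibility by an integer is divisibility of the two coordinates. -/
theorem USum_dvd (m : ℕ) (v : OO) : (m : OO) ∣ v ↔ (m : ℤ) ∣ v.re ∧ (m : ℤ) ∣ v.im := by
  constructor
  · rintro ⟨u, rfl⟩
    rw [nmul]
    exact ⟨⟨_, rfl⟩, ⟨_, rfl⟩⟩
  · rintro ⟨⟨a, ha⟩, ⟨b, hb⟩⟩
    refine ⟨⟨a, b⟩, ?_⟩
    rw [nmul]
    exact QuadraticAlgebra.ext ha hb

private theorem dvd_symm {m : ℕ} {v u : OO} (h : (m : OO) ∣ v - u) : (m : OO) ∣ u - v := by
  rw [← neg_sub]
  exact (dvd_neg).2 h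

private theorem dvd_tr {m : ℕ} {v u w : OO} (h : (m : OO) ∣ v - u) (h' : (m : OO) ∣ u - w) :
    (m : OO) ∣ v - w := by
  have h1 : v - w = (v - u) + (u - w) := by ring
  rw [h1]
  exact dvd_add h h'

/-- Two systems of representatives give the same sum. -/
theorem USum_two {A : Type} [AddCommMonoid A] (m : ℕ) (F : OO → A)
    (hF : ∀ v u : OO, F (v + m * u) = F v) (R R' : Finset OO)
    (ex : ∀ v : OO, ∃ r ∈ R, (m : OO) ∣ v - r)
    (uni : ∀ r ∈ R, ∀ r' ∈ R, (m : OO) ∣ r - r' → r = r')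
    (ex' : ∀ v : OO, ∃ r ∈ R', (m : OO) ∣ v - r)
    (uni' : ∀ r ∈ R', ∀ r' ∈ R', (m : OO) ∣ r - r' → r = r') :
    ∑ r ∈ R, F r = ∑ r ∈ R', F r := by
  choose g hg hg' using ex'
  have hF' : ∀ v u : OO, (m : OO) ∣ v - u → F v = F u := by
    rintro v u ⟨w, hw⟩
    rw [← hF u w, ← hw, add_sub_cancel]
  refine Finset.sum_bij (fun r _ => g r) (fun r _ => hg r) ?_ ?_ ?_
  · intro r hr s hs h
    refine uni r hr s hs (dvd_tr (hg' r) ?_)
    have h1 : g r = g s := h
    rw [h1]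
    exact dvd_symm (hg' s)
  · intro s hs
    obtain ⟨r, hr, hr'⟩ := ex s
    refine ⟨r, hr, ?_⟩
    exact uni' _ (hg r) s hs (dvd_symm (dvd_tr hr' (hg' r)))
  · intro r _
    exact hF' _ _ (hg' r)

/-- The box of the elements with coordinates in `0, .., m - 1`. -/
private def box (m : ℕ) : Finset OO := by
  classical
  exact (Finset.range m ×ˢ Finset.range m).image (fun p => (⟨p.1, p.2⟩ : OO))

private theorem box_inj (m : ℕ) : Set.InjOn (fun p : ℕ × ℕ => (⟨p.1, p.2⟩ : OO))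
    (Finset.range m ×ˢ Finset.range m : Finset (ℕ × ℕ)) := by
  intro p _ q _ h
  have h1 : ((p.1 : ℤ)) = q.1 := congrArg QuadraticAlgebra.re h
  have h2 : ((p.2 : ℤ)) = q.2 := congrArg QuadraticAlgebra.im h
  exact Prod.ext (by exact_mod_cast h1) (by exact_mod_cast h2)

private theorem box_sum {A : Type} [AddCommMonoid A] (m : ℕ) (F : OO → A) :
    ∑ r ∈ box m, F r = sumO m F := by
  classical
  unfold box sumO
  rw [Finset.sum_image (box_inj m), Finset.sum_product]

private theorem box_card (m : ℕ) : (box m).card = m ^ 2 := by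
  classical
  unfold box
  rw [Finset.card_image_of_injOn (box_inj m), Finset.card_product, Finset.card_range, sq]

private theorem mem_box {m : ℕ} {v : OO} :
    v ∈ box m ↔ ∃ a b : ℕ, a < m ∧ b < m ∧ v = ⟨a, b⟩ := by
  classical
  unfold box
  rw [Finset.mem_image]
  constructor
  · rintro ⟨⟨a, b⟩, h, rfl⟩
    rw [Finset.mem_product, Finset.mem_range, Finset.mem_range] at h
    exact ⟨a, b, h.1, h.2, rfl⟩
  · rintro ⟨a, b, ha, hb, rfl⟩
    exact ⟨(a, b), Finset.mem_product.2 ⟨Finset.mem_range.2 ha, Finset.mem_range.2 hb⟩, rfl⟩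

private theorem box_ex {m : ℕ} (hm : 0 < m) (v : OO) : ∃ r ∈ box m, (m : OO) ∣ v - r := by
  have hm' : (0 : ℤ) < m := by exact_mod_cast hm
  refine ⟨⟨v.re % m, v.im % m⟩, mem_box.2 ⟨(v.re % m).toNat, (v.im % m).toNat, ?_, ?_, ?_⟩, ?_⟩
  · have h1 := Int.emod_lt_of_pos v.re hm'
    have h2 := Int.emod_nonneg v.re hm'.ne'
    omega
  · have h1 := Int.emod_lt_of_pos v.im hm'
    have h2 := Int.emod_nonneg v.im hm'.ne'
    omega
  · rw [Int.toNat_of_nonneg (Int.emod_nonneg v.re hm'.ne'),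
      Int.toNat_of_nonneg (Int.emod_nonneg v.im hm'.ne')]
  · rw [USum_dvd]
    exact ⟨Int.dvd_self_sub_emod, Int.dvd_self_sub_emod⟩

private theorem box_uni {m : ℕ} : ∀ r ∈ box m, ∀ r' ∈ box m, (m : OO) ∣ r - r' → r = r' := by
  intro r hr r' hr' h
  obtain ⟨a, b, ha, hb, rfl⟩ := mem_box.1 hr
  obtain ⟨a', b', ha', hb', rfl⟩ := mem_box.1 hr'
  rw [USum_dvd] at h
  obtain ⟨h1, h2⟩ := h
  have h3 : (m : ℤ) ∣ (a : ℤ) - a' := h1
  have h4 : (m : ℤ) ∣ (b : ℤ) - b' := h2
  have key : ∀ x y : ℕ, x < m → y < m → (m : ℤ) ∣ (x : ℤ) - y → x = y := by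
    intro x y hx hy hxy
    have h5 := Int.eq_zero_of_abs_lt_dvd hxy (by rw [abs_lt]; constructor <;> omega)
    omega
  rw [key a a' ha ha' h3, key b b' hb hb' h4]

private theorem range_mul {A : Type} [AddCommMonoid A] (m k : ℕ) (f : ℕ → A) :
    ∑ x ∈ Finset.range (m * k), f x =
      ∑ a ∈ Finset.range m, ∑ c ∈ Finset.range k, f (m * c + a) := by
  rw [Finset.sum_comm]
  induction k with
  | zero => simp
  | succ k ih => rw [Nat.mul_succ, Finset.sum_range_add, ih, Finset.sum_range_succ]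

/-- (1): any system of representatives gives the sum. -/
theorem USum_rep {A : Type} [AddCommMonoid A] {m : ℕ} {F : OO → A} (hm : 0 < m)
    (hF : ∀ v u : OO, F (v + m * u) = F v) (R : Finset OO)
    (ex : ∀ v : OO, ∃ r ∈ R, (m : OO) ∣ v - r)
    (uni : ∀ r ∈ R, ∀ r' ∈ R, (m : OO) ∣ r - r' → r = r') : ∑ r ∈ R, F r = sumO m F := by
  rw [← box_sum]
  exact USum_two m F hF R (box m) ex uni (box_ex hm) box_uni

/-- (2): invariance under an injection modulo `m`. -/
theorem USum_map {A : Type} [AddCommMonoid A] {m : ℕ} {F : OO → A} (hm : 0 < m)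
    (hF : ∀ v u : OO, F (v + m * u) = F v) (φ : OO → OO)
    (hφ : ∀ v u : OO, (m : OO) ∣ v - u ↔ (m : OO) ∣ φ v - φ u) :
    sumO m (fun v => F (φ v)) = sumO m F := by
  classical
  have hF' : ∀ v u : OO, (m : OO) ∣ v - u → F v = F u := by
    rintro v u ⟨w, hw⟩
    rw [← hF u w, ← hw, add_sub_cancel]
  choose g hg hg' using (box_ex hm)
  have hinj : Set.InjOn (fun v => g (φ v)) (box m : Set OO) := by
    intro v hv u hu h
    have h1 : g (φ v) = g (φ u) := h
    refine box_uni v hv u hu ((hφ v u).2 (dvd_tr (hg' _) ?_))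
    rw [h1]
    exact dvd_symm (hg' _)
  have himg : (box m).image (fun v => g (φ v)) = box m := by
    refine Finset.eq_of_subset_of_card_le ?_ ?_
    · intro w hw
      obtain ⟨v, _, rfl⟩ := Finset.mem_image.1 hw
      exact hg _
    · rw [Finset.card_image_of_injOn hinj]
  rw [← box_sum, ← box_sum]
  conv_rhs => rw [← himg]
  rw [Finset.sum_image hinj]
  exact Finset.sum_congr rfl fun v _ => hF' _ _ (hg' _)

/-- (3): the sum over the fibres. -/
theorem USum_mul {A : Type} [AddCommMonoid A] (m k : ℕ) (H : OO → A) :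
    sumO (m * k) H = sumO m (fun v => sumO k (fun u => H (v + m * u))) := by
  unfold sumO
  rw [range_mul]
  refine Finset.sum_congr rfl fun a _ => ?_
  have h1 : ∀ c ∈ Finset.range k, ∑ y ∈ Finset.range (m * k), H ⟨((m * c + a : ℕ) : ℤ), (y : ℤ)⟩ =
      ∑ b ∈ Finset.range m, ∑ d ∈ Finset.range k,
        H ⟨((m * c + a : ℕ) : ℤ), ((m * d + b : ℕ) : ℤ)⟩ := fun c _ =>
    range_mul m k (fun y => H ⟨((m * c + a : ℕ) : ℤ), (y : ℤ)⟩)
  rw [Finset.sum_congr rfl h1, Finset.sum_comm]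
  refine Finset.sum_congr rfl fun b _ => Finset.sum_congr rfl fun c _ =>
    Finset.sum_congr rfl fun d _ => ?_
  congr 1
  rw [nmul]
  apply QuadraticAlgebra.ext
  · change ((m * c + a : ℕ) : ℤ) = (a : ℤ) + m * c
    push_cast
    ring
  · change ((m * d + b : ℕ) : ℤ) = (b : ℤ) + m * d
    push_cast
    ring

theorem tUSum : S_USum := by
  intro A _ m F hm hF
  exact ⟨fun R ex uni => USum_rep hm hF R ex uni, fun φ hφ => USum_map hm hF φ hφ,
    fun k H _ _ => USum_mul m k H, box m, box_ex hm, box_uni, box_card m⟩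

end Pool.Agent.DI
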