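import Pool.Agent.Lib.DI.Util.Spec
import Pool.Agent.Lib.DI.Util.UNm
import Pool.Agent.Lib.DI.Util.UCop
import Pool.Agent.Lib.DI.Util.USum

/-!
# Theorem DI, UHN: the groups `H_f`, `H_N`
-/

set_option autoImplicit false

open scoped Pointwise Topology nonZeroDivisors
open Filter

noncomputable section

namespace Pool.Agent.DI

open Pool.Agent.MuZ

private theorem nmod (v u : OO) (n : ℕ) (h : (n : OO) ∣ v - u) : (n : ℤ) ∣ Nm v - Nm u := by
  rw [USum_dvd] at h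
  obtain ⟨⟨a, ha⟩, ⟨b, hb⟩⟩ := h
  have ha' : v.re = u.re + n * a := by
    have : v.re - u.re = n * a := ha
    linarith
  have hb' : v.im = u.im + n * b := by
    have : v.im - u.im = n * b := hb
    linarith
  refine ⟨2 * u.re * a + n * a ^ 2 + u.re * b + u.im * a + n * a * b + 4 * u.im * b +
    2 * n * b ^ 2, ?_⟩
  unfold Nm
  rw [ha', hb']
  ring

private theorem nmod2 (v u : OO) (N : ℕ) (h : ((2 ^ N : ℕ) : OO) ∣ v - u) :
    (2 : ℤ) ^ N ∣ Nm v - Nm u := by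
  have := nmod v u (2 ^ N) h
  exact_mod_cast this

private theorem dvd_sub_symm {a v u : OO} (h : a ∣ v - u) : a ∣ u - v := by
  rw [← neg_sub]
  exact (dvd_neg).2 h

private theorem pw_one {a v : OO} (k : ℕ) (h : a ∣ v - 1) : a ∣ v ^ k - 1 := by
  have := sub_dvd_pow_sub_pow v 1 k
  rw [one_pow] at this
  exact h.trans this

theorem UHN_mul (f : ℕ) (v u : OO) (hv : Hf f v) (hu : Hf f u) : Hf f (v * u) := by
  obtain ⟨hv1, k, hk⟩ := hv
  obtain ⟨hu1, l, hl⟩ := hu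
  refine ⟨(UCop_mul v u f).2 ⟨hv1, hu1⟩, k + l, ?_⟩
  have h1 : (v * u) ^ 2 ^ (k + l) - 1 =
      ((v ^ 2 ^ k) ^ 2 ^ l - 1) * (u ^ 2 ^ l) ^ 2 ^ k + ((u ^ 2 ^ l) ^ 2 ^ k - 1) := by
    rw [mul_pow, pow_add, pow_mul, mul_comm (2 ^ k) (2 ^ l), pow_mul u]
    ring
  rw [h1]
  exact dvd_add (Dvd.dvd.mul_right (pw_one _ hk) _) (pw_one _ hl)

private theorem pm_mul {n a b : ℤ} (ha : n ∣ a - 1 ∨ n ∣ a + 1) (hb : n ∣ b - 1 ∨ n ∣ b + 1) :
    n ∣ a * b - 1 ∨ n ∣ a * b + 1 := by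
  rcases ha with ⟨x, hx⟩ | ⟨x, hx⟩ <;> rcases hb with ⟨y, hy⟩ | ⟨y, hy⟩
  · refine Or.inl ⟨x * b + y, ?_⟩
    linear_combination b * hx + hy
  · refine Or.inr ⟨x * b + y, ?_⟩
    linear_combination b * hx + hy
  · refine Or.inr ⟨x * b - y, ?_⟩
    linear_combination b * hx - hy
  · refine Or.inl ⟨x * b - y, ?_⟩
    linear_combination b * hx - hy

private theorem pm_inv {n a b : ℤ} (ha : n ∣ a - 1 ∨ n ∣ a + 1) (hb : n ∣ a * b - 1) :
    n ∣ b - 1 ∨ n ∣ b + 1 := by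
  obtain ⟨y, hy⟩ := hb
  rcases ha with ⟨x, hx⟩ | ⟨x, hx⟩
  · refine Or.inl ⟨y - x * b, ?_⟩
    linear_combination hy - b * hx
  · refine Or.inr ⟨x * b - y, ?_⟩
    linear_combination b * hx - hy

theorem UHN_mulN (f N : ℕ) (v u : OO) (hv : HN f N v) (hu : HN f N u) : HN f N (v * u) := by
  refine ⟨UHN_mul f v u hv.1 hu.1, ?_⟩
  rw [UNm_mul]
  exact pm_mul hv.2 hu.2

/-- Invariance modulo `f`. -/
theorem UHN_congr (f : ℕ) (v u : OO) (h : (f : OO) ∣ u - v) (hv : Hf f v) : Hf f u := by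
  obtain ⟨hv1, k, hk⟩ := hv
  obtain ⟨w, hw⟩ := h
  have hu : u = v + f * w := by
    rw [← hw]
    ring
  refine ⟨?_, k, ?_⟩
  · rw [hu]
    exact (UCop_add v w f).2 hv1
  · have h1 : u ^ 2 ^ k - 1 = (u ^ 2 ^ k - v ^ 2 ^ k) + (v ^ 2 ^ k - 1) := by ring
    rw [h1]
    exact dvd_add (Dvd.dvd.trans ⟨w, hw⟩ (sub_dvd_pow_sub_pow u v _)) hk

/-- Invariance modulo `f 2^N`. -/
theorem UHN_congrN (f N : ℕ) (v u : OO) (h : ((f * 2 ^ N : ℕ) : OO) ∣ u - v) (hv : HN f N v) :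
    HN f N u := by
  have h1 : (f : OO) ∣ u - v := by
    refine Dvd.dvd.trans ⟨((2 ^ N : ℕ) : OO), ?_⟩ h
    push_cast
    rfl
  have h2 : ((2 ^ N : ℕ) : OO) ∣ u - v := by
    refine Dvd.dvd.trans ⟨(f : OO), ?_⟩ h
    push_cast
    ring
  refine ⟨UHN_congr f v u h1 hv.1, ?_⟩
  have h3 := nmod2 u v N h2
  rcases hv.2 with h4 | h4
  · left
    have : Nm u - 1 = (Nm u - Nm v) + (Nm v - 1) := by ring
    rw [this]
    exact dvd_add h3 h4
  · right
    have : Nm u + 1 = (Nm u - Nm v) + (Nm v + 1) := by ring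
    rw [this]
    exact dvd_add h3 h4

private theorem nm_one : Nm 1 = 1 := rfl

private theorem nm_neg_one : Nm (-1) = 1 := rfl

theorem UHN_one (f : ℕ) : Hf f 1 := by
  refine ⟨?_, 0, ?_⟩
  · unfold Cop
    rw [nm_one]
    exact isCoprime_one_left
  · rw [one_pow, sub_self]
    exact dvd_zero _

theorem UHN_neg (f : ℕ) : Hf f (-1) := by
  refine ⟨?_, 1, ?_⟩
  · unfold Cop
    rw [nm_neg_one]
    exact isCoprime_one_left
  · rw [pow_one, neg_one_sq, sub_self]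
    exact dvd_zero _

theorem UHN_oneN (f N : ℕ) : HN f N 1 := by
  refine ⟨UHN_one f, Or.inl ?_⟩
  rw [nm_one, sub_self]
  exact dvd_zero _

theorem UHN_negN (f N : ℕ) : HN f N (-1) := by
  refine ⟨UHN_neg f, Or.inl ?_⟩
  rw [nm_neg_one, sub_self]
  exact dvd_zero _

theorem UHN_cop (f N : ℕ) (v : OO) (hv : HN f N v) : Cop v (f * 2 ^ N) := by
  rw [UCop_mul_right]
  refine ⟨hv.1.1, ?_⟩
  unfold Cop
  push_cast
  rcases hv.2 with ⟨y, hy⟩ | ⟨y, hy⟩
  · exact ⟨1, -y, by linear_combination hy⟩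
  · exact ⟨-1, y, by linear_combination -hy⟩

private theorem cj_dvd (n : ℕ) (v : OO) (h : (n : OO) ∣ v) : (n : OO) ∣ cjO v := by
  rw [USum_dvd] at h ⊢
  exact ⟨dvd_add h.1 h.2, (dvd_neg).2 h.2⟩

private theorem cj_pow (v : OO) (k : ℕ) : cjO (v ^ k) = cjO v ^ k := by
  induction k with
  | zero =>
    rw [pow_zero, pow_zero]
    rfl
  | succ k ih => rw [pow_succ, pow_succ, UNm_cjmul, ih]

private theorem cj_sub (v u : OO) : cjO (v - u) = cjO v - cjO u := by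
  apply QuadraticAlgebra.ext
  · change v.re - u.re + (v.im - u.im) = v.re + v.im - (u.re + u.im)
    ring
  · change -(v.im - u.im) = -v.im - -u.im
    ring

private theorem cj_one : cjO 1 = 1 := rfl

theorem UHN_cj (f : ℕ) (v : OO) (hv : Hf f v) : Hf f (cjO v) := by
  obtain ⟨hv1, k, hk⟩ := hv
  refine ⟨?_, k, ?_⟩
  · unfold Cop
    rw [UNm_cjnm]
    exact hv1
  · have := cj_dvd f _ hk
    rwa [cj_sub, cj_pow, cj_one] at this

theorem UHN_cjN (f N : ℕ) (v : OO) (hv : HN f N v) : HN f N (cjO v) := by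
  refine ⟨UHN_cj f v hv.1, ?_⟩
  rw [UNm_cjnm]
  exact hv.2

theorem UHN_inv (f : ℕ) (v u : OO) (hv : Hf f v) (h : (f : OO) ∣ v * u - 1) : Hf f u := by
  obtain ⟨hv1, k, hk⟩ := hv
  refine ⟨?_, k, ?_⟩
  · rw [UCop_iff]
    obtain ⟨w, hw⟩ := h
    refine ⟨v, -w, ?_⟩
    linear_combination hw
  · have h1 : u ^ 2 ^ k - 1 = ((v * u) ^ 2 ^ k - 1) - (v ^ 2 ^ k - 1) * u ^ 2 ^ k := by
      rw [mul_pow]
      ring
    rw [h1]
    exact dvd_sub (pw_one _ h) (Dvd.dvd.mul_right hk _)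

private theorem dvd_l (f N : ℕ) : (f : OO) ∣ ((f * 2 ^ N : ℕ) : OO) := by
  refine ⟨((2 ^ N : ℕ) : OO), ?_⟩
  push_cast
  rfl

private theorem dvd_r (f N : ℕ) : ((2 ^ N : ℕ) : OO) ∣ ((f * 2 ^ N : ℕ) : OO) := by
  refine ⟨(f : OO), ?_⟩
  push_cast
  ring

theorem UHN_invN (f N : ℕ) (v u : OO) (hv : HN f N v) (h : ((f * 2 ^ N : ℕ) : OO) ∣ v * u - 1) :
    HN f N u := by
  refine ⟨UHN_inv f v u hv.1 ((dvd_l f N).trans h), ?_⟩
  have h1 := nmod2 (v * u) 1 N ((dvd_r f N).trans h)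
  rw [UNm_mul, nm_one] at h1
  exact pm_inv hv.2 h1

private theorem cop_two (f N : ℕ) (hf : Odd f) :
    ∃ a b : OO, a * (f : OO) + b * ((2 ^ N : ℕ) : OO) = 1 := by
  have h1 : Nat.Coprime f (2 ^ N) := (Nat.Coprime.pow_right N hf.coprime_two_right)
  have h2 : IsCoprime (f : ℤ) ((2 ^ N : ℕ) : ℤ) := Nat.isCoprime_iff_coprime.2 h1
  obtain ⟨a, b, h⟩ := h2
  refine ⟨(a : OO), (b : OO), ?_⟩
  have := congrArg (fun n : ℤ => (n : OO)) h
  push_cast at this ⊢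
  exact this

/-- The lift of an element of `H_f`. -/
theorem UHN_lift (f N : ℕ) (hf : Odd f) (v : OO) (hv : Hf f v) :
    ∃ u : OO, HN f N u ∧ ((2 ^ N : ℕ) : OO) ∣ u - 1 ∧ (f : OO) ∣ u - v := by
  obtain ⟨a, b, h⟩ := cop_two f N hf
  have h1 : ((2 ^ N : ℕ) : OO) ∣ (v * (b * ((2 ^ N : ℕ) : OO)) + a * f) - 1 := by
    refine ⟨v * b - b, ?_⟩
    linear_combination h
  have h2 : (f : OO) ∣ (v * (b * ((2 ^ N : ℕ) : OO)) + a * f) - v := by
    refine ⟨a - v * a, ?_⟩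
    linear_combination v * h
  refine ⟨v * (b * ((2 ^ N : ℕ) : OO)) + a * f, ⟨UHN_congr f v _ h2 hv, Or.inl ?_⟩, h1, h2⟩
  have := nmod2 _ 1 N h1
  rwa [nm_one] at this

/-! ### The number of classes -/

private theorem pp : pO * pbO = 2 := by
  apply QuadraticAlgebra.ext
  · exact QuadraticAlgebra.re_mul pO pbO
  · exact QuadraticAlgebra.im_mul pO pbO

private theorem pp_pow (N : ℕ) : pO ^ N * pbO ^ N = ((2 ^ N : ℕ) : OO) := by
  rw [← mul_pow, pp]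
  push_cast
  rfl

private theorem pp_add : pO + pbO = 1 := rfl

private theorem cj_pO : cjO pO = pbO := rfl

private theorem cj_pbO : cjO pbO = pO := rfl

private theorem pO_cop (N : ℕ) : IsCoprime (pO ^ N) (pbO ^ N) := by
  refine IsCoprime.pow ⟨1, 1, ?_⟩
  rw [one_mul, one_mul, pp_add]

private theorem cj_dvd' {a v : OO} (h : a ∣ v) : cjO a ∣ cjO v := by
  obtain ⟨w, rfl⟩ := h
  exact ⟨cjO w, UNm_cjmul a w⟩

private theorem not_pO (x : OO) (h : (2 : OO) = pO ^ 2 * x) : False := by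
  have h0 : pO ^ 2 = (⟨-2, 1⟩ : OO) := by
    rw [sq]
    apply QuadraticAlgebra.ext
    · exact QuadraticAlgebra.re_mul pO pO
    · exact QuadraticAlgebra.im_mul pO pO
  rw [h0] at h
  have h1 := congrArg QuadraticAlgebra.re h
  have h2 := congrArg QuadraticAlgebra.im h
  rw [QuadraticAlgebra.re_mul] at h1
  rw [QuadraticAlgebra.im_mul] at h2
  change (2 : ℤ) = _ at h1
  change (0 : ℤ) = _ at h2
  simp only at h1 h2
  omega

private theorem not_pbO (x : OO) (h : (2 : OO) = pbO ^ 2 * x) : False := by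
  have h0 : pbO ^ 2 = (⟨-1, -1⟩ : OO) := by
    rw [sq]
    apply QuadraticAlgebra.ext
    · exact QuadraticAlgebra.re_mul pbO pbO
    · exact QuadraticAlgebra.im_mul pbO pbO
  rw [h0] at h
  have h1 := congrArg QuadraticAlgebra.re h
  have h2 := congrArg QuadraticAlgebra.im h
  rw [QuadraticAlgebra.re_mul] at h1
  rw [QuadraticAlgebra.im_mul] at h2
  change (2 : ℤ) = _ at h1
  change (0 : ℤ) = _ at h2
  simp only at h1 h2
  omega

/-- The sign homomorphism of three orthogonal idempotents. -/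
private def sgn {Q : Type} [CommRing Q] (E1 E2 E3 : Q) (h : E1 + E2 + E3 = 1) (h12 : E1 * E2 = 0)
    (h13 : E1 * E3 = 0) (h23 : E2 * E3 = 0) : ℤˣ × ℤˣ × ℤˣ →* Q where
  toFun s := ((s.1 : ℤ) : Q) * E1 + ((s.2.1 : ℤ) : Q) * E2 + ((s.2.2 : ℤ) : Q) * E3
  map_one' := by
    simp [h]
  map_mul' s t := by
    have h1 : E1 * E1 = E1 := by linear_combination E1 * h - h12 - h13
    have h2 : E2 * E2 = E2 := by linear_combination E2 * h - h12 - h23
    have h3 : E3 * E3 = E3 := by linear_combination E3 * h - h13 - h23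
    simp only [Prod.fst_mul, Prod.snd_mul, Units.val_mul, Int.cast_mul]
    linear_combination (-((s.1 : ℤ) : Q) * ((t.1 : ℤ) : Q)) * h1 -
      (((s.2.1 : ℤ) : Q) * ((t.2.1 : ℤ) : Q)) * h2 - (((s.2.2 : ℤ) : Q) * ((t.2.2 : ℤ) : Q)) * h3 -
      (((s.1 : ℤ) : Q) * ((t.2.1 : ℤ) : Q) + ((s.2.1 : ℤ) : Q) * ((t.1 : ℤ) : Q)) * h12 -
      (((s.1 : ℤ) : Q) * ((t.2.2 : ℤ) : Q) + ((s.2.2 : ℤ) : Q) * ((t.1 : ℤ) : Q)) * h13 -
      (((s.2.1 : ℤ) : Q) * ((t.2.2 : ℤ) : Q) + ((s.2.2 : ℤ) : Q) * ((t.2.1 : ℤ) : Q)) * h23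

private theorem sgn_inj {Q : Type} [CommRing Q] (E1 E2 E3 : Q) (h : E1 + E2 + E3 = 1)
    (h12 : E1 * E2 = 0) (h13 : E1 * E3 = 0) (h23 : E2 * E3 = 0) (n1 : 2 * E1 ≠ 0)
    (n2 : 2 * E2 ≠ 0) (n3 : 2 * E3 ≠ 0) (s : ℤˣ × ℤˣ × ℤˣ)
    (hs : sgn E1 E2 E3 h h12 h13 h23 s = 1) : s = 1 := by
  have h1 : E1 * E1 = E1 := by linear_combination E1 * h - h12 - h13
  have h2 : E2 * E2 = E2 := by linear_combination E2 * h - h12 - h23
  have h3 : E3 * E3 = E3 := by linear_combination E3 * h - h13 - h23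
  obtain ⟨s1, s2, s3⟩ := s
  change ((s1 : ℤ) : Q) * E1 + ((s2 : ℤ) : Q) * E2 + ((s3 : ℤ) : Q) * E3 = 1 at hs
  have a1 : ((s1 : ℤ) : Q) * E1 = E1 := by
    linear_combination E1 * hs - ((s1 : ℤ) : Q) * h1 - ((s2 : ℤ) : Q) * h12 - ((s3 : ℤ) : Q) * h13
  have a2 : ((s2 : ℤ) : Q) * E2 = E2 := by
    linear_combination E2 * hs - ((s2 : ℤ) : Q) * h2 - ((s1 : ℤ) : Q) * h12 - ((s3 : ℤ) : Q) * h23
  have a3 : ((s3 : ℤ) : Q) * E3 = E3 := by
    linear_combination E3 * hs - ((s3 : ℤ) : Q) * h3 - ((s1 : ℤ) : Q) * h13 - ((s2 : ℤ) : Q) * h23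
  have key : ∀ (s : ℤˣ) (E : Q), 2 * E ≠ 0 → ((s : ℤ) : Q) * E = E → s = 1 := by
    intro s E hE hs
    rcases Int.units_eq_one_or s with rfl | rfl
    · rfl
    · exfalso
      apply hE
      have : (((-1 : ℤˣ) : ℤ) : Q) = -1 := by simp
      rw [this] at hs
      linear_combination -hs
  rw [key s1 E1 n1 a1, key s2 E2 n2 a2, key s3 E3 n3 a3]
  rfl

private theorem mk_eq (M : ℕ) (v u : OO) :
    (Ideal.Quotient.mk (Ideal.span {(M : OO)}) v = Ideal.Quotient.mk (Ideal.span {(M : OO)}) u) ↔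
      (M : OO) ∣ v - u := by
  rw [Ideal.Quotient.eq, Ideal.mem_span_singleton]

/-- The group `H_N`. -/
private def Hs (f N : ℕ) : Subgroup (OO ⧸ Ideal.span {((f * 2 ^ N : ℕ) : OO)})ˣ where
  carrier := {u | ∃ v : OO, HN f N v ∧
    Ideal.Quotient.mk _ v = (u : OO ⧸ Ideal.span {((f * 2 ^ N : ℕ) : OO)})}
  one_mem' := ⟨1, UHN_oneN f N, by rw [map_one, Units.val_one]⟩
  mul_mem' := by
    rintro a b ⟨v, hv, hv'⟩ ⟨u, hu, hu'⟩
    exact ⟨v * u, UHN_mulN f N v u hv hu, by rw [map_mul, hv', hu', Units.val_mul]⟩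
  inv_mem' := by
    rintro a ⟨v, hv, hv'⟩
    obtain ⟨u, hu⟩ := Ideal.Quotient.mk_surjective
      ((a⁻¹ : (OO ⧸ Ideal.span {((f * 2 ^ N : ℕ) : OO)})ˣ) :
        OO ⧸ Ideal.span {((f * 2 ^ N : ℕ) : OO)})
    refine ⟨u, UHN_invN f N v u hv ?_, hu⟩
    rw [← mk_eq, map_mul, hv', hu, map_one, Units.mul_inv]

private theorem unit_ex (f N : ℕ) (v : OO) (hv : HN f N v) :
    ∃ u : Hs f N, Ideal.Quotient.mk _ v =
      (((u : (OO ⧸ Ideal.span {((f * 2 ^ N : ℕ) : OO)})ˣ)) :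
        OO ⧸ Ideal.span {((f * 2 ^ N : ℕ) : OO)}) := by
  have h1 := (UCop_iff v (f * 2 ^ N)).1 (UHN_cop f N v hv)
  obtain ⟨a, b, hab⟩ := h1
  have h2 : Ideal.Quotient.mk (Ideal.span {((f * 2 ^ N : ℕ) : OO)}) v *
      Ideal.Quotient.mk (Ideal.span {((f * 2 ^ N : ℕ) : OO)}) a = 1 := by
    rw [← map_mul, ← map_one (Ideal.Quotient.mk _), mk_eq]
    exact ⟨-b, by linear_combination hab⟩
  exact ⟨⟨Units.mkOfMulEqOne _ _ h2, v, hv, rfl⟩, rfl⟩

/-- The elements of `O` which are `s1`, `s2`, `s3` modulo `f`, `π^N`, `π̄^N` are in `H_N`. -/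
private theorem mem_sign (f N : ℕ) (x : OO) (s1 s2 s3 : ℤˣ) (h1 : (f : OO) ∣ x - ((s1 : ℤ) : OO))
    (h2 : pO ^ N ∣ x - ((s2 : ℤ) : OO)) (h3 : pbO ^ N ∣ x - ((s3 : ℤ) : OO)) : HN f N x := by
  constructor
  · refine UHN_congr f _ _ h1 ?_
    rcases Int.units_eq_one_or s1 with rfl | rfl
    · have : (((1 : ℤˣ) : ℤ) : OO) = 1 := by simp
      rw [this]
      exact UHN_one f
    · have : (((-1 : ℤˣ) : ℤ) : OO) = -1 := by simp
      rw [this]
      exact UHN_neg f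
  · have c0 : ∀ s : ℤ, cjO (s : OO) = (s : OO) := fun s => by
      apply QuadraticAlgebra.ext
      · change s + 0 = s
        ring
      · change -(0 : ℤ) = 0
        ring
    have h2' : pbO ^ N ∣ cjO x - ((s2 : ℤ) : OO) := by
      have := cj_dvd' h2
      rwa [cj_pow, cj_pO, cj_sub, c0] at this
    have h3' : pO ^ N ∣ cjO x - ((s3 : ℤ) : OO) := by
      have := cj_dvd' h3
      rwa [cj_pow, cj_pbO, cj_sub, c0] at this
    have e1 : ((Nm x - s2 * s3 : ℤ) : OO) = x * cjO x - ((s2 : ℤ) : OO) * ((s3 : ℤ) : OO) := by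
      rw [← UNm_cj]
      push_cast
      rfl
    have d1 : pO ^ N ∣ ((Nm x - s2 * s3 : ℤ) : OO) := by
      rw [e1]
      have : x * cjO x - ((s2 : ℤ) : OO) * ((s3 : ℤ) : OO) =
          (x - ((s2 : ℤ) : OO)) * cjO x + ((s2 : ℤ) : OO) * (cjO x - ((s3 : ℤ) : OO)) := by ring
      rw [this]
      exact dvd_add (Dvd.dvd.mul_right h2 _) (Dvd.dvd.mul_left h3' _)
    have d2 : pbO ^ N ∣ ((Nm x - s2 * s3 : ℤ) : OO) := by
      rw [e1]
      have : x * cjO x - ((s2 : ℤ) : OO) * ((s3 : ℤ) : OO) =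
          (x - ((s3 : ℤ) : OO)) * cjO x + ((s3 : ℤ) : OO) * (cjO x - ((s2 : ℤ) : OO)) := by ring
      rw [this]
      exact dvd_add (Dvd.dvd.mul_right h3 _) (Dvd.dvd.mul_left h2' _)
    have d3 : ((2 ^ N : ℕ) : OO) ∣ ((Nm x - s2 * s3 : ℤ) : OO) := by
      rw [← pp_pow]
      exact (pO_cop N).mul_dvd d1 d2
    have d4 : ((2 ^ N : ℕ) : ℤ) ∣ Nm x - s2 * s3 := ((USum_dvd (2 ^ N) _).1 d3).1
    have d5 : (2 : ℤ) ^ N ∣ Nm x - s2 * s3 := by exact_mod_cast d4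
    rcases Int.units_eq_one_or s2 with rfl | rfl <;> rcases Int.units_eq_one_or s3 with rfl | rfl
    · left; simpa using d5
    · right; simpa using d5
    · right; simpa using d5
    · left; simpa using d5

/-- The order of `H_N` is divisible by `8`. -/
private theorem card_Hs (f N : ℕ) (hf : Odd f) (h7 : 7 ∣ f) (hN : 2 ≤ N) : 8 ∣ Nat.card (Hs f N) := by
  obtain ⟨a, b, hab⟩ := cop_two f N hf
  obtain ⟨c, d, hcd⟩ := pO_cop N
  have hpp := pp_pow N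
  have hM : ((f * 2 ^ N : ℕ) : OO) = f * ((2 ^ N : ℕ) : OO) := by
    push_cast
    rfl
  set m : OO →+* OO ⧸ Ideal.span {((f * 2 ^ N : ℕ) : OO)} := Ideal.Quotient.mk _ with hm
  have m0 : ∀ x : OO, ((f * 2 ^ N : ℕ) : OO) ∣ x → m x = 0 := fun x hx => by
    rw [← map_zero m, hm, mk_eq, sub_zero]
    exact hx
  have m0' : ∀ x : OO, m x = 0 → ((f * 2 ^ N : ℕ) : OO) ∣ x := fun x hx => by
    rw [← map_zero m, hm, mk_eq, sub_zero] at hx
    exact hx
  have hsum : m (b * ((2 ^ N : ℕ) : OO)) + m (a * f * (d * pbO ^ N)) + m (a * f * (c * pO ^ N)) = 1 := by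
    rw [← map_add, ← map_add, ← map_one m]
    congr 1
    linear_combination hab + a * f * hcd
  have h12 : m (b * ((2 ^ N : ℕ) : OO)) * m (a * f * (d * pbO ^ N)) = 0 := by
    rw [← map_mul]
    refine m0 _ ⟨b * a * d * pbO ^ N, ?_⟩
    rw [hM]
    ring
  have h13 : m (b * ((2 ^ N : ℕ) : OO)) * m (a * f * (c * pO ^ N)) = 0 := by
    rw [← map_mul]
    refine m0 _ ⟨b * a * c * pO ^ N, ?_⟩
    rw [hM]
    ring
  have h23 : m (a * f * (d * pbO ^ N)) * m (a * f * (c * pO ^ N)) = 0 := by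
    rw [← map_mul]
    refine m0 _ ⟨a ^ 2 * f * d * c, ?_⟩
    rw [hM, ← hpp]
    ring
  have htwo : m 2 = 2 := map_ofNat m 2
  have hpO : pO ^ N ∣ ((f * 2 ^ N : ℕ) : OO) := ⟨f * pbO ^ N, by rw [hM, ← hpp]; ring⟩
  have hpbO : pbO ^ N ∣ ((f * 2 ^ N : ℕ) : OO) := ⟨f * pO ^ N, by rw [hM, ← hpp]; ring⟩
  have n1 : 2 * m (b * ((2 ^ N : ℕ) : OO)) ≠ 0 := by
    intro h0
    rw [← htwo, ← map_mul] at h0
    have h1 : (f : OO) ∣ 2 * (b * ((2 ^ N : ℕ) : OO)) := (dvd_l f N).trans (m0' _ h0)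
    have h2 : (f : OO) ∣ 2 := by
      have h3 : (2 : OO) = 2 * (b * ((2 ^ N : ℕ) : OO)) + f * (2 * a) := by
        linear_combination -2 * hab
      rw [h3]
      exact dvd_add h1 (dvd_mul_right _ _)
    have h4 : (f : ℤ) ∣ 2 := ((USum_dvd f 2).1 h2).1
    have h5 : (7 : ℤ) ∣ 2 := Dvd.dvd.trans (by exact_mod_cast h7) h4
    norm_num at h5
  have n2 : 2 * m (a * f * (d * pbO ^ N)) ≠ 0 := by
    intro h0
    rw [← htwo, ← map_mul] at h0
    have h1 : pO ^ N ∣ 2 * (a * f * (d * pbO ^ N)) := hpO.trans (m0' _ h0)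
    have h2 : pO ^ N ∣ 2 := by
      have h3 : (2 : OO) = 2 * (a * f * (d * pbO ^ N)) +
          pO ^ N * (2 * b * pbO ^ N + 2 * a * f * c) := by
        linear_combination -2 * hab - 2 * a * f * hcd - 2 * b * hpp
      rw [h3]
      exact dvd_add h1 (dvd_mul_right _ _)
    obtain ⟨x, hx⟩ := (pow_dvd_pow pO hN).trans h2
    exact not_pO x hx
  have n3 : 2 * m (a * f * (c * pO ^ N)) ≠ 0 := by
    intro h0
    rw [← htwo, ← map_mul] at h0
    have h1 : pbO ^ N ∣ 2 * (a * f * (c * pO ^ N)) := hpbO.trans (m0' _ h0)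
    have h2 : pbO ^ N ∣ 2 := by
      have h3 : (2 : OO) = 2 * (a * f * (c * pO ^ N)) +
          pbO ^ N * (2 * b * pO ^ N + 2 * a * f * d) := by
        linear_combination -2 * hab - 2 * a * f * hcd - 2 * b * hpp
      rw [h3]
      exact dvd_add h1 (dvd_mul_right _ _)
    obtain ⟨x, hx⟩ := (pow_dvd_pow pbO hN).trans h2
    exact not_pbO x hx
  let φ0 := sgn _ _ _ hsum h12 h13 h23
  have hφ : ∀ s, φ0.toHomUnits s ∈ Hs f N := by
    rintro ⟨s1, s2, s3⟩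
    refine ⟨((s1 : ℤ) : OO) * (b * ((2 ^ N : ℕ) : OO)) + ((s2 : ℤ) : OO) * (a * f * (d * pbO ^ N)) +
      ((s3 : ℤ) : OO) * (a * f * (c * pO ^ N)), ?_, ?_⟩
    · refine mem_sign f N _ s1 s2 s3 ?_ ?_ ?_
      · refine ⟨-((s1 : ℤ) : OO) * a + ((s2 : ℤ) : OO) * (a * (d * pbO ^ N)) +
          ((s3 : ℤ) : OO) * (a * (c * pO ^ N)), ?_⟩
        linear_combination ((s1 : ℤ) : OO) * hab
      · refine ⟨((s1 : ℤ) : OO) * (b * pbO ^ N) + ((s3 : ℤ) : OO) * (a * f * c) -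
          ((s2 : ℤ) : OO) * (a * f * c) - ((s2 : ℤ) : OO) * (b * pbO ^ N), ?_⟩
        linear_combination (((s2 : ℤ) : OO) * a * f) * hcd + ((s2 : ℤ) : OO) * hab -
          ((s1 : ℤ) : OO) * b * hpp + ((s2 : ℤ) : OO) * b * hpp
      · refine ⟨((s1 : ℤ) : OO) * (b * pO ^ N) + ((s2 : ℤ) : OO) * (a * f * d) -
          ((s3 : ℤ) : OO) * (a * f * d) - ((s3 : ℤ) : OO) * (b * pO ^ N), ?_⟩
        linear_combination (((s3 : ℤ) : OO) * a * f) * hcd + ((s3 : ℤ) : OO) * hab -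
          ((s1 : ℤ) : OO) * b * hpp + ((s3 : ℤ) : OO) * b * hpp
    · rw [MonoidHom.coe_toHomUnits]
      change m _ = ((s1 : ℤ) : OO ⧸ Ideal.span {((f * 2 ^ N : ℕ) : OO)}) * _ +
        ((s2 : ℤ) : OO ⧸ Ideal.span {((f * 2 ^ N : ℕ) : OO)}) * _ +
        ((s3 : ℤ) : OO ⧸ Ideal.span {((f * 2 ^ N : ℕ) : OO)}) * _
      rw [map_add, map_add, map_mul m (s1 : OO), map_mul m (s2 : OO), map_mul m (s3 : OO),
        map_intCast, map_intCast, map_intCast]
  have hinj : Function.Injective (φ0.toHomUnits.codRestrict (Hs f N) hφ) := by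
    rw [injective_iff_map_eq_one]
    intro s hs
    have h1 : φ0 s = 1 := by
      have := congrArg (fun u : Hs f N =>
        (((u : (OO ⧸ Ideal.span {((f * 2 ^ N : ℕ) : OO)})ˣ)) :
          OO ⧸ Ideal.span {((f * 2 ^ N : ℕ) : OO)})) hs
      exact this
    exact sgn_inj _ _ _ hsum h12 h13 h23 n1 n2 n3 s h1
  have h8 := Subgroup.card_dvd_of_injective _ hinj
  have h9 : Nat.card (ℤˣ × ℤˣ × ℤˣ) = 8 := by
    rw [Nat.card_prod, Nat.card_prod, Nat.card_eq_fintype_card]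
    rfl
  rwa [h9] at h8

/-- The order of `H_N` and the number of representatives modulo `±1`. -/
private theorem card_T (f N : ℕ) (h7 : 7 ∣ f) (T : Finset OO) (hT : IsRep f N T) :
    Nat.card (Hs f N) = T.card * 2 := by
  have hmul : ∀ (s : ℤˣ) (v : OO), HN f N v → HN f N (((s : ℤ) : OO) * v) := by
    intro s v hv
    rcases Int.units_eq_one_or s with rfl | rfl
    · simpa using hv
    · have := UHN_mulN f N (-1) v (UHN_negN f N) hv
      simpa using this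
  choose g hg using fun p : T × ℤˣ => unit_ex f N (((p.2 : ℤ) : OO) * p.1.1) (hmul _ _ (hT.mem _ p.1.2))
  have hbij : Function.Bijective g := by
    constructor
    · rintro ⟨⟨v, hv⟩, s⟩ ⟨⟨u, hu⟩, t⟩ h
      have h1 := hg ⟨⟨v, hv⟩, s⟩
      rw [h, ← hg ⟨⟨u, hu⟩, t⟩, mk_eq] at h1
      change ((f * 2 ^ N : ℕ) : OO) ∣ ((s : ℤ) : OO) * v - ((t : ℤ) : OO) * u at h1
      have hbad : ∀ w ∈ T, ((f * 2 ^ N : ℕ) : OO) ∣ w + w → False := by
        intro w hw h2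
        obtain ⟨x, y, hxy⟩ := (UCop_iff w (f * 2 ^ N)).1 (UHN_cop f N w (hT.mem w hw))
        have h3 : ((f * 2 ^ N : ℕ) : OO) ∣ 2 := by
          have h4 : (2 : OO) = x * (w + w) + ((f * 2 ^ N : ℕ) : OO) * (2 * y) := by
            linear_combination -2 * hxy
          rw [h4]
          exact dvd_add (Dvd.dvd.mul_left h2 _) (dvd_mul_right _ _)
        have h5 : (f : ℤ) ∣ 2 := ((USum_dvd f 2).1 ((dvd_l f N).trans h3)).1
        have h6 : (7 : ℤ) ∣ 2 := Dvd.dvd.trans (by exact_mod_cast h7) h5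
        norm_num at h6
      rcases Int.units_eq_one_or s with rfl | rfl <;> rcases Int.units_eq_one_or t with rfl | rfl
      · have h2 : v = u := hT.uni v hv u hu (Or.inl (by simpa using h1))
        subst h2
        rfl
      · exfalso
        have h1' : ((f * 2 ^ N : ℕ) : OO) ∣ v + u := by simpa using h1
        have h2 : v = u := hT.uni v hv u hu (Or.inr h1')
        subst h2
        exact hbad v hv h1'
      · exfalso
        have h1' : ((f * 2 ^ N : ℕ) : OO) ∣ v + u := by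
          have h3 : v + u = -((((-1 : ℤˣ) : ℤ) : OO) * v - (((1 : ℤˣ) : ℤ) : OO) * u) := by
            simp
            ring
          rw [h3]
          exact (dvd_neg).2 h1
        have h2 : v = u := hT.uni v hv u hu (Or.inr h1')
        subst h2
        exact hbad v hv h1'
      · have h2 : v = u := by
          refine (hT.uni u hu v hv (Or.inl ?_)).symm
          have h3 : u - v = (((-1 : ℤˣ) : ℤ) : OO) * v - (((-1 : ℤˣ) : ℤ) : OO) * u := by
            simp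
            ring
          rw [h3]
          exact h1
        subst h2
        rfl
    · rintro ⟨u, v, hv, hv'⟩
      obtain ⟨h, hh, hd⟩ := hT.ex v hv
      rcases hd with hd | hd
      · refine ⟨⟨⟨h, hh⟩, 1⟩, ?_⟩
        apply Subtype.ext
        apply Units.ext
        rw [← hg ⟨⟨h, hh⟩, 1⟩, ← hv', mk_eq]
        simpa using dvd_sub_symm hd
      · refine ⟨⟨⟨h, hh⟩, -1⟩, ?_⟩
        apply Subtype.ext
        apply Units.ext
        rw [← hg ⟨⟨h, hh⟩, -1⟩, ← hv', mk_eq]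
        have h3 : (((-1 : ℤˣ) : ℤ) : OO) * h - v = -(v + h) := by
          simp
          ring
        change ((f * 2 ^ N : ℕ) : OO) ∣ (((-1 : ℤˣ) : ℤ) : OO) * h - v
        rw [h3]
        exact (dvd_neg).2 hd
  rw [← Nat.card_congr (Equiv.ofBijective g hbij), Nat.card_prod, Nat.card_eq_fintype_card,
    Nat.card_eq_fintype_card, Fintype.card_coe]
  rfl

/-- The number of classes modulo `±1` is divisible by `4`. -/
theorem UHN_card (f N : ℕ) (hf : Odd f) (h7 : 7 ∣ f) (hN : 2 ≤ N) (T : Finset OO)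
    (hT : IsRep f N T) : 4 ∣ T.card := by
  have h1 := card_Hs f N hf h7 hN
  rw [card_T f N h7 T hT] at h1
  omega

theorem tUHN : S_UHN := by
  intro f N hf h7
  refine ⟨⟨UHN_neg f, UHN_negN f N, UHN_one f, UHN_oneN f N⟩, UHN_mul f, UHN_mulN f N, ?_, ?_,
    fun v hv => hv.1, UHN_cop f N, UHN_cj f, UHN_cjN f N, UHN_inv f, UHN_invN f N,
    UHN_lift f N hf, fun hN T hT => UHN_card f N hf h7 hN T hT⟩
  · intro v u hv
    refine UHN_congr f v _ ?_ hv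
    rw [add_sub_cancel_left]
    exact dvd_mul_right _ _
  · intro v u hv
    refine UHN_congrN f N v _ ?_ hv
    rw [add_sub_cancel_left]
    exact dvd_mul_right _ _

end Pool.Agent.DI
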