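import Pool.Agent.Lib.DI.Util.Spec

open scoped Pointwise Topology nonZeroDivisors
open Filter

noncomputable section

namespace Pool.Agent.DI

open Pool.Agent.MuZ

private theorem eps_congr {a b : ℤ} (h : (7 : ℤ) ∣ a - b) : jacobiSym a 7 = jacobiSym b 7 := by
  apply jacobiSym.mod_left'
  have h1 : b ≡ a [ZMOD 7] := Int.modEq_iff_dvd.2 h
  exact h1.symm

private theorem re_mul' (v u : OO) : (v * u).re = v.re * u.re + -2 * v.im * u.im :=
  QuadraticAlgebra.re_mul v u

private theorem im_mul' (v u : OO) : (v * u).im = v.re * u.im + v.im * u.re + 1 * v.im * u.im :=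
  QuadraticAlgebra.im_mul v u

theorem UEps_mul (v u : OO) : eps (v * u) = eps v * eps u := by
  unfold eps
  rw [← jacobiSym.mul_left]
  apply eps_congr
  rw [re_mul', im_mul']
  exact ⟨-(2 * v.im * u.im), by ring⟩

private theorem seven_re (u : OO) : ((7 : OO) * u).re = 7 * u.re := by
  rw [re_mul', show (7 : OO).re = 7 from rfl, show (7 : OO).im = 0 from rfl]
  ring

private theorem seven_im (u : OO) : ((7 : OO) * u).im = 7 * u.im := by
  rw [im_mul', show (7 : OO).re = 7 from rfl, show (7 : OO).im = 0 from rfl]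
  ring

theorem UEps_per (v u : OO) : eps (v + 7 * u) = eps v := by
  unfold eps
  apply eps_congr
  rw [QuadraticAlgebra.re_add, QuadraticAlgebra.im_add, seven_re, seven_im]
  exact ⟨u.re + 4 * u.im, by ring⟩

theorem UEps_neg (v : OO) : eps (-v) = -eps v := by
  unfold eps
  rw [QuadraticAlgebra.re_neg, QuadraticAlgebra.im_neg,
    show -v.re + 4 * -v.im = (-1) * (v.re + 4 * v.im) by ring, jacobiSym.mul_left]
  have h : jacobiSym (-1) 7 = -1 := by norm_num
  rw [h]
  ring

theorem UEps_cjO (v : OO) : eps (cjO v) = eps v := by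
  unfold eps cjO
  apply eps_congr
  exact ⟨-v.im, by ring⟩

theorem UEps_int (d : ℤ) : eps (d : OO) = jacobiSym d 7 := by
  unfold eps
  rw [show (d : OO).re = d from rfl, show (d : OO).im = 0 from rfl, mul_zero, add_zero]

theorem UEps_pO : eps pO = 1 := by
  change jacobiSym (0 + 4 * 1) 7 = 1
  norm_num

theorem UEps_pbO : eps pbO = 1 := by
  change jacobiSym (1 + 4 * -1) 7 = 1
  norm_num

theorem UEps_two : eps 2 = 1 := by
  have h := UEps_int 2
  rw [Int.cast_ofNat] at h
  rw [h]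
  norm_num

private theorem cop_iff (v : OO) : Cop v 7 ↔ Int.gcd (v.re + 4 * v.im) ((7 : ℕ) : ℤ) = 1 := by
  unfold Cop
  rw [← Int.isCoprime_iff_gcd_eq_one]
  have h : Nm v = (v.re + 4 * v.im) ^ 2 + ((7 : ℕ) : ℤ) * (-(v.re * v.im) - 2 * v.im ^ 2) := by
    unfold Nm
    push_cast
    ring
  rw [h, IsCoprime.add_mul_left_left_iff]
  exact IsCoprime.pow_left_iff (by norm_num)

theorem UEps_sq (v : OO) (h : Cop v 7) : eps v ^ 2 = 1 :=
  jacobiSym.sq_one ((cop_iff v).1 h)

theorem UEps_zero (v : OO) (h : ¬ Cop v 7) : eps v = 0 :=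
  jacobiSym.eq_zero_iff_not_coprime.2 fun h1 => h ((cop_iff v).2 h1)

theorem UEps_or (v : OO) (h : Cop v 7) : eps v = 1 ∨ eps v = -1 := by
  have h1 := UEps_sq v h
  rw [sq] at h1
  exact mul_self_eq_one_iff.1 h1

theorem tUEps : S_UEps :=
  ⟨UEps_mul, UEps_per, UEps_neg, UEps_cjO, UEps_int, UEps_pO, UEps_pbO, UEps_two, UEps_sq,
    UEps_zero, UEps_or⟩

end Pool.Agent.DI
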