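import Pool.Agent.Lib.DI.Iface

/-!
# Theorem DI: elementary facts about `O`, `Nm`, `eps`, `sumO`, `IsSys`, `IsHalf`, `IsRep`, `Tor`

Every `S_U...` is proved in its own module `DI/Util/<Name>.lean` (theorem `tU...`), no statement needs
another one unless it is a hypothesis.
-/

open scoped Pointwise Topology nonZeroDivisors
open Filter

noncomputable section

namespace Pool.Agent.DI

open Pool.Agent.MuZ Pool.Agent.FW NumberField IsDedekindDomain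

/-- (60 lines) The norm. `toC` has `‖toC v‖ ^ 2 = Nm v`. PROOF: coordinates; `4 Nm v = (2 re + im) ^ 2 + 7 im ^ 2`. -/
def S_UNm : Prop :=
  (∀ v u : OO, Nm (v * u) = Nm v * Nm u) ∧ (∀ v : OO, 0 ≤ Nm v) ∧ (∀ v : OO, Nm v = 0 ↔ v = 0) ∧
    (∀ n : ℤ, Nm (n : OO) = n ^ 2) ∧ (∀ v : OO, ((Nm v : ℤ) : OO) = v * cjO v) ∧
    (∀ v u : OO, cjO (v * u) = cjO v * cjO u) ∧ (∀ v : OO, Nm (cjO v) = Nm v ∧ cjO (cjO v) = v) ∧
    (∀ v : OO, ‖toC v‖ ^ 2 = (Nm v : ℝ)) ∧ Function.Injective toC ∧ Function.Injective toO ∧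
    (∀ v : OO, toC (cjO v) = (starRingEnd ℂ) (toC v)) ∧ (∀ v : OO, IsUnit v ↔ v = 1 ∨ v = -1)

/-- (100 lines) `O` is a Euclidean domain, hence a principal ideal domain (the statement: domain and
every ideal principal, plus division with remainder).
PROOF: for `a`, `b ≠ 0` put `a / b = a cjO(b) / Nm b = x + y w` with rational `x, y`; choose an integer `n`
with `|y - n| ≤ 1/2` and then `m` with `|x - m + (y - n)/2| ≤ 1/2`; the norm of the difference is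
`(x - m + (y - n)/2)^2 + 7 (y - n)^2/4 ≤ 1/4 + 7/16 < 1`. -/
def S_UPid : Prop :=
  IsDomain OO ∧ IsPrincipalIdealRing OO ∧ ∀ a b : OO, b ≠ 0 → ∃ q : OO, Nm (a - b * q) < Nm b

/-- (80 lines) Coprimality. PROOF: `v cjO(v) = Nm v`; if `v x + N y = 1` take norms modulo `N`
(`Nm (1 - N y) = 1` modulo `N`); conversely `Nm v x + N y = 1` in `ℤ` gives `v (cjO v x) + N y = 1`. -/
def S_UCop : Prop :=
  (∀ (v : OO) (N : ℕ), Cop v N ↔ IsCoprime v (N : OO)) ∧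
    (∀ (v u : OO) (N : ℕ), Cop (v * u) N ↔ Cop v N ∧ Cop u N) ∧
    (∀ (v u : OO) (N : ℕ), Cop (v + N * u) N ↔ Cop v N) ∧
    (∀ (v : OO) (N M : ℕ), Cop v (N * M) ↔ Cop v N ∧ Cop v M) ∧
    (∀ v : OO, Cop v 2 ↔ (2 : OO) ∣ v - 1) ∧
    (∀ v : OO, Cop v 2 ↔ ¬ pO ∣ v ∧ ¬ pbO ∣ v) ∧
    (∀ v : OO, IsCoprime v 2 ↔ Cop v 2) ∧
    (∀ v : OO, (pO ∣ v ↔ (2 : ℤ) ∣ v.re) ∧ (pbO ∣ v ↔ (2 : ℤ) ∣ v.re + v.im))

/-- (80 lines) The symbol `eps`. PROOF: `eps` is the Legendre symbol modulo `7` composed with the ring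
homomorphism `v ↦ v.re + 4 v.im` to `ZMod 7` (`w ^ 2 = w - 2`, `16 = 4 - 2` modulo `7`). -/
def S_UEps : Prop :=
  (∀ v u : OO, eps (v * u) = eps v * eps u) ∧ (∀ v u : OO, eps (v + 7 * u) = eps v) ∧
    (∀ v : OO, eps (-v) = -eps v) ∧ (∀ v : OO, eps (cjO v) = eps v) ∧
    (∀ d : ℤ, eps (d : OO) = jacobiSym d 7) ∧ eps pO = 1 ∧ eps pbO = 1 ∧ eps 2 = 1 ∧
    (∀ v : OO, Cop v 7 → eps v ^ 2 = 1) ∧ (∀ v : OO, ¬ Cop v 7 → eps v = 0) ∧
    ∀ v : OO, Cop v 7 → eps v = 1 ∨ eps v = -1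

/-- (150 lines) Sums over `O / m`. `F` is `m`-periodic. (1) the sum over any finite set `R` of
representatives is `sumO m F`; (2) a map `φ` which is injective modulo `m` and compatible with congruence
modulo `m` does not change the sum; (3) the sum over `O / (m k)` is the sum over `O / m` of the sums over
the fibres. -/
def S_USum : Prop :=
  ∀ (A : Type) [AddCommMonoid A] (m : ℕ) (F : OO → A), 0 < m → (∀ v u : OO, F (v + m * u) = F v) →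
    (∀ R : Finset OO, (∀ v : OO, ∃ r ∈ R, (m : OO) ∣ v - r) →
      (∀ r ∈ R, ∀ r' ∈ R, (m : OO) ∣ r - r' → r = r') → ∑ r ∈ R, F r = sumO m F) ∧
    (∀ φ : OO → OO, (∀ v u : OO, (m : OO) ∣ v - u ↔ (m : OO) ∣ φ v - φ u) →
      sumO m (fun v => F (φ v)) = sumO m F) ∧
    (∀ (k : ℕ) (H : OO → A), 0 < k → (∀ v u : OO, H (v + (m * k : ℕ) * u) = H v) →
      sumO (m * k) H = sumO m (fun v => sumO k (fun u => H (v + m * u)))) ∧
    ∃ R : Finset OO, (∀ v : OO, ∃ r ∈ R, (m : OO) ∣ v - r) ∧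
      (∀ r ∈ R, ∀ r' ∈ R, (m : OO) ∣ r - r' → r = r') ∧ R.card = m ^ 2

/-- (100 lines) Existence of systems, and torsion points.
PROOF: `O / μ` is finite (it is a quotient of `O / Nm μ`), the points `v / μ`. A half system: choose one
element of each class `± u` (`Finset` of representatives for the relation `u ~ u'` iff `u ± u'` in `O`).
`IsRep`: the same for the residue classes in `HN f N`. -/
def S_UEx : Prop :=
  (∀ μ : OO, μ ≠ 0 → ∃ R : Finset ℂ, IsSys μ R) ∧ (∀ μ : OO, μ ≠ 0 → ∃ S : Finset ℂ, IsHalf μ S) ∧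
    (∀ f N : ℕ, 0 < f → ∃ T : Finset OO, IsRep f N T) ∧
    (∀ (μ : OO) (z : ℂ), μ ≠ 0 → (Lat (toC μ * z) ↔ ∃ v : OO, z = toC v / toC μ)) ∧
    (∀ z z' : ℂ, Tor z → Tor z' → Tor (z + z') ∧ Tor (z - z') ∧ Tor (-z)) ∧
    (∀ (μ : OO) (z : ℂ), Tor z → Tor (toC μ * z)) ∧ (∀ z : ℂ, Lat z → Tor z) ∧
    (∀ (μ : OO) (z : ℂ), μ ≠ 0 → Lat (toC μ * z) → Tor z) ∧
    (∀ z z' : ℂ, Lat z → Lat z' → Lat (z + z') ∧ Lat (z - z') ∧ Lat (-z)) ∧
    (∀ (μ : OO) (z : ℂ), Lat z → Lat (toC μ * z)) ∧ Lat 0 ∧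
    (∀ (v : OO) (n : ℕ), 0 < n → (Lat (toC v / n) ↔ (n : OO) ∣ v)) ∧
    ∀ (μ : OO) (R : Finset ℂ), μ ≠ 0 → IsSys μ R → (R.card : ℤ) = Nm μ

/-- (100 lines) The groups `H_f`, `H_N`. (1) `-1` is in both, they are closed under multiplication and
invariant modulo `f`, `f 2^N`; inverses; conjugation. (2) The number of classes: `|H_N / ±|` is even for
`N ≥ 1` (`7 ∣ f`, `f` odd), and divisible by `4` for `N ≥ 2`... precisely: for `T` with `IsRep f N T`, `2 ≤ N`: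
`T.card` is divisible by `4`. PROOF of (2): the group `H_N` modulo `f 2^N` contains the subgroup of the
elements `= 1` modulo `f` with norm `±1` modulo `2^N`, that is the pairs `(a, b)` of units modulo `2^N` with
`a b = ±1`, of order `2 * 2^(N-1)`, and maps onto `H_f` (lift an element of `H_f` to an element which is `1`
modulo `2^N`), whose order is a power of two and even (`-1`): so `|H_N| = |H_f| 2^N` is divisible by `8`, and
`|H_N| = 2 |T|`. -/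
def S_UHN : Prop :=
  ∀ f N : ℕ, Odd f → 7 ∣ f →
    (Hf f (-1) ∧ HN f N (-1) ∧ Hf f 1 ∧ HN f N 1) ∧
    (∀ v u : OO, Hf f v → Hf f u → Hf f (v * u)) ∧ (∀ v u : OO, HN f N v → HN f N u → HN f N (v * u)) ∧
    (∀ v u : OO, Hf f v → Hf f (v + f * u)) ∧
    (∀ v u : OO, HN f N v → HN f N (v + (f * 2 ^ N : ℕ) * u)) ∧
    (∀ v : OO, Hf f v → Cop v f) ∧ (∀ v : OO, HN f N v → Cop v (f * 2 ^ N)) ∧
    (∀ v : OO, Hf f v → Hf f (cjO v)) ∧ (∀ v : OO, HN f N v → HN f N (cjO v)) ∧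
    (∀ v u : OO, Hf f v → (f : OO) ∣ v * u - 1 → Hf f u) ∧
    (∀ v u : OO, HN f N v → ((f * 2 ^ N : ℕ) : OO) ∣ v * u - 1 → HN f N u) ∧
    (∀ v : OO, Hf f v → ∃ u : OO, HN f N u ∧ ((2 ^ N : ℕ) : OO) ∣ u - 1 ∧ (f : OO) ∣ u - v) ∧
    (2 ≤ N → ∀ T : Finset OO, IsRep f N T → 4 ∣ T.card)

end Pool.Agent.DI
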